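import Mathlib

/-!
Combinatorial core: two systems of topes with isomorphic quotient graphs agree up to a signed
bijection of labels.
-/

open Finset

namespace Pool.Agent.LibMPd06cab

section basics

variable {ι : Type*}

theorem not_ne_iff' : ∀ a b : Bool, (!a) ≠ b ↔ ¬ (a ≠ b) := by decide

/-- negation of a sign vector -/
def neg (T : ι → Bool) : ι → Bool := fun i => !(T i)

variable [DecidableEq ι]

/-- flip the signs in `A` -/
def flip (T : ι → Bool) (A : Finset ι) : ι → Bool := fun i => if i ∈ A then !(T i) else T i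

variable [Fintype ι]

theorem ham_def (T S : ι → Bool) : hammingDist T S = (univ.filter fun i => T i ≠ S i).card := rfl

omit [DecidableEq ι] [Fintype ι] in
@[simp] theorem neg_neg' (T : ι → Bool) : neg (neg T) = T := by
  funext i; simp [neg]

omit [Fintype ι] in
theorem flip_apply_mem {T : ι → Bool} {A : Finset ι} {i : ι} (h : i ∈ A) :
    flip T A i = !(T i) := by simp [flip, h]

omit [Fintype ι] in
theorem flip_apply_notMem {T : ι → Bool} {A : Finset ι} {i : ι} (h : i ∉ A) :
    flip T A i = T i := by simp [flip, h]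

omit [Fintype ι] in
@[simp] theorem flip_flip (T : ι → Bool) (A : Finset ι) : flip (flip T A) A = T := by
  funext i; by_cases h : i ∈ A <;> simp [flip, h]

omit [Fintype ι] in
theorem flip_comm (T : ι → Bool) (A B : Finset ι) : flip (flip T A) B = flip (flip T B) A := by
  funext i; by_cases h : i ∈ A <;> by_cases h' : i ∈ B <;> simp [flip, h, h']

omit [Fintype ι] in
theorem neg_flip (T : ι → Bool) (A : Finset ι) : neg (flip T A) = flip (neg T) A := by
  funext i; by_cases h : i ∈ A <;> simp [flip, neg, h]

theorem ham_flip_self (T : ι → Bool) (A : Finset ι) : hammingDist T (flip T A) = A.card := by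
  rw [ham_def]
  congr 1
  ext i
  by_cases h : i ∈ A <;> simp [flip, h]

omit [DecidableEq ι] in
theorem ham_neg_left (T S : ι → Bool) : hammingDist (neg T) S + hammingDist T S = Fintype.card ι := by
  classical
  rw [ham_def, ham_def, ← Finset.card_univ, add_comm]
  have h : (univ.filter fun i => neg T i ≠ S i) = univ.filter fun i => ¬ (T i ≠ S i) := by
    apply Finset.filter_congr
    intro i _
    exact not_ne_iff' (T i) (S i)
  rw [h]
  exact Finset.card_filter_add_card_filter_not _

omit [DecidableEq ι] in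
theorem ham_neg_right (T S : ι → Bool) : hammingDist T (neg S) + hammingDist T S = Fintype.card ι := by
  rw [hammingDist_comm T (neg S), hammingDist_comm T S]
  exact ham_neg_left S T

omit [DecidableEq ι] in
theorem ham_neg_neg (T S : ι → Bool) : hammingDist (neg T) (neg S) = hammingDist T S := by
  have h1 := ham_neg_left T (neg S)
  have h2 := ham_neg_right T S
  omega

theorem ham_flip_sub {T S : ι → Bool} {A : Finset ι} (hA : ∀ i ∈ A, T i ≠ S i) :
    hammingDist (flip T A) S + A.card = hammingDist T S := by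
  rw [ham_def, ham_def, ← Finset.card_union_of_disjoint]
  · congr 1
    ext i
    simp only [mem_union, mem_filter, mem_univ, true_and]
    by_cases h : i ∈ A
    · have := hA i h
      simp [h, this]
    · simp [flip, h]
  · rw [Finset.disjoint_left]
    intro i hi hiA
    have h1 := hA i hiA
    have h2 := (mem_filter.mp hi).2
    rw [flip_apply_mem hiA, not_ne_iff'] at h2
    exact h2 h1

theorem ham_flip_add {T S : ι → Bool} {A : Finset ι} (hA : ∀ i ∈ A, T i = S i) :
    hammingDist (flip T A) S = hammingDist T S + A.card := by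
  have : ∀ i ∈ A, flip T A i ≠ S i := by
    intro i hi
    rw [flip_apply_mem hi, hA i hi]
    cases S i <;> simp
  have h := ham_flip_sub this
  rw [flip_flip] at h
  exact h.symm

omit [DecidableEq ι] in
theorem ham_parity (a b c : ι → Bool) :
    (hammingDist a c) % 2 = (hammingDist a b + hammingDist b c) % 2 := by
  classical
  simp only [ham_def, Finset.card_filter]
  rw [← Finset.sum_add_distrib]
  induction (univ : Finset ι) using Finset.induction_on with
  | empty => simp
  | insert i s hi ih =>
    rw [Finset.sum_insert hi, Finset.sum_insert hi, Nat.add_mod, ih, ← Nat.add_mod, Nat.add_mod,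
      Nat.add_mod (((if a i ≠ b i then 1 else 0) + if b i ≠ c i then 1 else 0))]
    congr 2
    cases a i <;> cases b i <;> cases c i <;> simp

theorem exists_flip_of_ham_one {T S : ι → Bool} (h : hammingDist T S = 1) :
    ∃ i, S = flip T {i} := by
  rw [ham_def, Finset.card_eq_one] at h
  obtain ⟨i, hi⟩ := h
  refine ⟨i, ?_⟩
  funext j
  have hj : j ∈ (univ.filter fun i => T i ≠ S i) ↔ j ∈ ({i} : Finset ι) := by rw [hi]
  simp only [mem_filter, mem_univ, true_and, mem_singleton] at hj
  by_cases hji : j = i
  · have := hj.mpr hji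
    subst hji
    simp only [flip, mem_singleton, if_true]
    revert this
    cases T j <;> cases S j <;> simp
  · simp only [flip, mem_singleton, hji, if_false]
    by_contra hne
    exact hji (hj.mp (fun h => hne h.symm))

omit [Fintype ι] in
theorem flip_single_inj {T : ι → Bool} {a b : ι} (h : flip T {a} = flip T {b}) : a = b := by
  by_contra hab
  have := congrFun h a
  simp [flip, hab] at this

/-- flips of one coordinate are never antipodal when there are at least three coordinates -/
theorem flip_single_ne_neg (hn : 3 ≤ Fintype.card ι) (T : ι → Bool) (a b : ι) :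
    flip T {a} ≠ neg (flip T {b}) := by
  intro h
  have h1 : hammingDist (flip T {a}) (flip T {b}) ≤ 2 := by
    have h2 := hammingDist_triangle (flip T {a}) T (flip T {b})
    rw [hammingDist_comm (flip T {a}) T, ham_flip_self, ham_flip_self] at h2
    simpa using h2
  have h3 := ham_neg_left (flip T {b}) (flip T {b})
  rw [← h, hammingDist_self] at h3
  omega

end basics

/-- An abstract system of topes. -/
structure Sys (ι : Type*) [Fintype ι] [DecidableEq ι] where
  /-- the topes -/
  tope : Set (ι → Bool)
  neg_mem : ∀ T ∈ tope, neg T ∈ tope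
  step : ∀ T ∈ tope, ∀ S ∈ tope, T ≠ S → ∃ i, T i ≠ S i ∧ flip T {i} ∈ tope
  /-- the line through two elements -/
  line : ι → ι → Finset ι
  mem_left : ∀ g h, g ∈ line g h
  mem_right : ∀ g h, h ∈ line g h
  line_unique : ∀ g h a b, g ≠ h → a ≠ b → a ∈ line g h → b ∈ line g h → line a b = line g h
  hstep : ∀ g T S, T ∈ tope → flip T {g} ∈ tope → S ∈ tope → flip S {g} ∈ tope → T g = S g →
    T ≠ S → ∃ h, h ≠ g ∧ T h ≠ S h ∧ (∀ e ∈ line g h, e ≠ g → T e ≠ S e) ∧
      flip T ((line g h).erase g) ∈ tope ∧ flip (flip T ((line g h).erase g)) {g} ∈ tope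
  rank3 : ∀ g h k, ∃ P, ∀ a b, a ∈ line g h ∪ line g k → b ∈ line g h ∪ line g k → P ∉ line a b
  walls : ∀ T ∈ tope, ∃ A : Finset ι, 3 ≤ A.card ∧ ∀ i ∈ A, flip T {i} ∈ tope
  facet : ∀ g, ∃ T ∈ tope, flip T {g} ∈ tope

section corr

variable {ι κ : Type*} [Fintype ι] [DecidableEq ι] [Fintype κ] [DecidableEq κ]

/-- A correspondence between topes coming from an isomorphism of quotient graphs. -/
structure Corr (S : Sys ι) (S' : Sys κ) (R : (ι → Bool) → (κ → Bool) → Prop) : Prop where
  left_mem : ∀ {T t}, R T t → T ∈ S.tope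
  right_mem : ∀ {T t}, R T t → t ∈ S'.tope
  left_total : ∀ T ∈ S.tope, ∃ t, R T t
  right_total : ∀ t ∈ S'.tope, ∃ T, R T t
  neg_right : ∀ {T t}, R T t → R T (neg t)
  neg_left : ∀ {T t}, R T t → R (neg T) t
  uniq_right : ∀ {T t t'}, R T t → R T t' → t' = t ∨ t' = neg t
  uniq_left : ∀ {T T' t}, R T t → R T' t → T' = T ∨ T' = neg T
  adj : ∀ {T t T' t'}, R T t → R T' t' → hammingDist T T' = 1 →
    hammingDist t t' = 1 ∨ hammingDist t (neg t') = 1
  adj' : ∀ {T t T' t'}, R T t → R T' t' → hammingDist t t' = 1 →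
    hammingDist T T' = 1 ∨ hammingDist T (neg T') = 1

variable {S : Sys ι} {S' : Sys κ} {R : (ι → Bool) → (κ → Bool) → Prop}

theorem Corr.symm (C : Corr S S' R) : Corr S' S (fun t T => R T t) where
  left_mem := C.right_mem
  right_mem := C.left_mem
  left_total := C.right_total
  right_total := C.left_total
  neg_right := C.neg_left
  neg_left := C.neg_right
  uniq_right := C.uniq_left
  uniq_left := C.uniq_right
  adj := C.adj'
  adj' := C.adj

/-- adjacency lifting -/
theorem Corr.adj_lift (C : Corr S S' R) {T T' : ι → Bool} {t : κ → Bool} (h : R T t)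
    (hT' : T' ∈ S.tope) (h1 : hammingDist T T' = 1) : ∃ t', R T' t' ∧ hammingDist t t' = 1 := by
  obtain ⟨t', ht'⟩ := C.left_total T' hT'
  rcases C.adj h ht' h1 with h2 | h2
  · exact ⟨t', ht', h2⟩
  · exact ⟨neg t', C.neg_right ht', h2⟩

theorem Corr.lift (C : Corr S S' R) : ∀ (k : ℕ) {T T' : ι → Bool} {t : κ → Bool}, R T t →
    T' ∈ S.tope → hammingDist T T' = k → ∃ t', R T' t' ∧ hammingDist t t' ≤ k ∧
      hammingDist t t' % 2 = k % 2 := by
  intro k
  induction k with
  | zero =>
    intro T T' t h hT' h0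
    rw [hammingDist_eq_zero] at h0
    subst h0
    exact ⟨t, h, by simp, by simp⟩
  | succ k ih =>
    intro T T' t h hT' h0
    have hne : T ≠ T' := by
      intro he
      rw [he, hammingDist_self] at h0
      omega
    obtain ⟨i, hi, him⟩ := S.step T (C.left_mem h) T' hT' hne
    obtain ⟨t₁, ht₁, hd₁⟩ := C.adj_lift h him (by simp [ham_flip_self])
    have h2 := ham_flip_sub (T := T) (S := T') (A := {i}) (by simpa using hi)
    rw [h0] at h2
    simp only [card_singleton, Nat.add_right_cancel_iff] at h2
    obtain ⟨t', ht', hle, hpar⟩ := ih ht₁ hT' h2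
    refine ⟨t', ht', ?_, ?_⟩
    · have := hammingDist_triangle t t₁ t'
      omega
    · have := ham_parity t t₁ t'
      omega

/-- lower bound for distances of lifts -/
theorem Corr.lower (C : Corr S S' R) {T T' : ι → Bool} {t t' : κ → Bool} (h : R T t)
    (h' : R T' t') : hammingDist T T' ≤ hammingDist t t' ∨
      Fintype.card ι - hammingDist T T' ≤ hammingDist t t' := by
  obtain ⟨T'', hT'', hle, _⟩ := C.symm.lift _ h (C.right_mem h') rfl
  rcases C.uniq_left h' hT'' with rfl | rfl
  · left; exact hle
  · right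
    have := ham_neg_right T T'
    omega

theorem exists_mid (S : Sys ι) (T : ι → Bool) (hT : T ∈ S.tope) : ∀ k, k ≤ Fintype.card ι →
    ∃ T' ∈ S.tope, hammingDist T T' = k := by
  intro k
  induction k with
  | zero => intro _; exact ⟨T, hT, by simp⟩
  | succ k ih =>
    intro hk
    obtain ⟨T', hT', hd⟩ := ih (by omega)
    have hne : T' ≠ neg T := by
      rintro rfl
      have := ham_neg_right T T
      rw [hammingDist_self] at this
      omega
    obtain ⟨i, hi, him⟩ := S.step T' hT' (neg T) (S.neg_mem T hT) hne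
    refine ⟨_, him, ?_⟩
    have hi' : T' i = T i := by
      simp only [neg] at hi
      revert hi
      cases T' i <;> cases T i <;> simp
    rw [hammingDist_comm, ham_flip_add (by simpa using hi'), hammingDist_comm, hd]
    simp

theorem Corr.nonempty (C : Corr S S' R) [Nonempty ι] : ∃ T t, R T t := by
  obtain ⟨g⟩ := (inferInstance : Nonempty ι)
  obtain ⟨T, hT, _⟩ := S.facet g
  obtain ⟨t, ht⟩ := C.left_total T hT
  exact ⟨T, t, ht⟩

theorem Corr.card_half (C : Corr S S' R) {T : ι → Bool} (hT : T ∈ S.tope) :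
    2 * (Fintype.card ι / 2) ≤ Fintype.card κ := by
  obtain ⟨t, ht⟩ := C.left_total T hT
  obtain ⟨T', hT', hd⟩ := exists_mid S T (C.left_mem ht) (Fintype.card ι / 2) (by omega)
  obtain ⟨t', ht'⟩ := C.left_total T' hT'
  have h1 := C.lower ht ht'
  have h2 := C.lower ht (C.neg_right ht')
  have h3 := ham_neg_right t t'
  omega

theorem Corr.card_le (C : Corr S S' R) {T : ι → Bool} (hT : T ∈ S.tope) :
    Fintype.card ι ≤ Fintype.card κ := by
  obtain ⟨t, ht⟩ := C.left_total T hT
  by_contra hlt
  push Not at hlt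
  have h1 := C.card_half hT
  -- card ι = 2k+1, card κ = 2k
  obtain ⟨t', ht', hle, hpar⟩ := C.lift _ ht (S.neg_mem T hT) rfl
  have h2 := ham_neg_right T T
  rw [hammingDist_self] at h2
  rcases C.uniq_right ht (by simpa using C.neg_left ht') with rfl | rfl
  · rw [hammingDist_self] at hpar
    omega
  · have h3 := ham_neg_right t t
    rw [hammingDist_self] at h3
    omega

theorem Corr.card_eq (C : Corr S S' R) {T : ι → Bool} (hT : T ∈ S.tope) :
    Fintype.card ι = Fintype.card κ := by
  obtain ⟨t, ht⟩ := C.left_total T hT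
  exact le_antisymm (C.card_le hT) (C.symm.card_le (C.right_mem ht))

/-- `Lab T g a`: the edge of the quotient graph given by `T` and the wall `g` is labelled by `a`
in the second system. -/
def Lab (R : (ι → Bool) → (κ → Bool) → Prop) (T : ι → Bool) (g : ι) (a : κ) : Prop :=
  ∃ t, R T t ∧ R (flip T {g}) (flip t {a})

theorem Corr.lab_exists (C : Corr S S' R) {T : ι → Bool} {g : ι} (hT : T ∈ S.tope)
    (hg : flip T {g} ∈ S.tope) : ∃ a, Lab R T g a := by
  obtain ⟨t, ht⟩ := C.left_total T hT
  obtain ⟨t', ht', h1⟩ := C.adj_lift ht hg (by simp [ham_flip_self])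
  obtain ⟨a, rfl⟩ := exists_flip_of_ham_one h1
  exact ⟨a, t, ht, ht'⟩

theorem Corr.lab_all (C : Corr S S' R) {T : ι → Bool} {g : ι} {a : κ} (h : Lab R T g a)
    {t : κ → Bool} (ht : R T t) : R (flip T {g}) (flip t {a}) := by
  obtain ⟨t₀, ht₀, h1⟩ := h
  rcases C.uniq_right ht₀ ht with rfl | rfl
  · exact h1
  · rw [← neg_flip]
    exact C.neg_right h1

theorem Corr.lab_unique (C : Corr S S' R) (hκ : 3 ≤ Fintype.card κ) {T : ι → Bool} {g : ι}
    {a b : κ} (ha : Lab R T g a) (hb : Lab R T g b) : a = b := by
  obtain ⟨t, ht, h1⟩ := ha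
  have h2 := C.lab_all hb ht
  rcases C.uniq_right h1 h2 with h | h
  · exact (flip_single_inj h).symm
  · exact absurd h (flip_single_ne_neg hκ t b a)

theorem Corr.lab_symm (C : Corr S S' R) {T : ι → Bool} {t : κ → Bool} {g : ι} {a : κ}
    (h : Lab R T g a) (ht : R T t) : Lab (fun t T => R T t) t a g :=
  ⟨T, ht, C.lab_all h ht⟩

theorem Corr.lab_neg (C : Corr S S' R) {T : ι → Bool} {g : ι} {a : κ} (h : Lab R T g a) :
    Lab R (neg T) g a := by
  obtain ⟨t, ht, h1⟩ := h
  refine ⟨t, C.neg_left ht, ?_⟩
  rw [← neg_flip]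
  exact C.neg_left h1

theorem lab_flip {T : ι → Bool} {g : ι} {a : κ} (h : Lab R T g a) :
    Lab R (flip T {g}) g a := by
  obtain ⟨t, ht, h1⟩ := h
  exact ⟨flip t {a}, h1, by simpa using ht⟩

/-- injectivity of labels at a vertex -/
theorem Corr.lab_inj (C : Corr S S' R) (hι : 3 ≤ Fintype.card ι) {T : ι → Bool} {g h : ι}
    {a : κ} (hg : Lab R T g a) (hh : Lab R T h a) : g = h := by
  obtain ⟨t, ht, _⟩ := id hg
  exact C.symm.lab_unique hι (C.lab_symm hg ht) (C.lab_symm hh ht)

/-- The label lemma. -/
theorem Corr.label (C : Corr S S' R) {m : ℕ} (hm : 2 * m < Fintype.card ι)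
    (hm' : 2 * m < Fintype.card κ) {T : ι → Bool} {g : ι} {D : Finset ι} (hgD : g ∉ D)
    (hD : D.card + 1 = m)
    (hTD : flip T D ∈ S.tope) (hTDg : flip (flip T D) {g} ∈ S.tope) {a : κ} (ha : Lab R T g a) :
    Lab R (flip T D) g a := by
  obtain ⟨t, ht, ht'⟩ := ha
  have hκ3 : 3 ≤ Fintype.card κ := by omega
  have d1 : hammingDist T (flip T D) = D.card := ham_flip_self _ _
  have d2 : hammingDist T (flip (flip T D) {g}) = D.card + 1 := by
    rw [hammingDist_comm, ham_flip_add]
    · rw [hammingDist_comm, d1]; simp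
    · intro i hi
      rw [mem_singleton] at hi
      subst hi
      exact flip_apply_notMem hgD
  have d3 : hammingDist (flip T {g}) (flip T D) = D.card + 1 := by
    rw [ham_flip_add]
    · rw [d1]; simp
    · intro i hi
      rw [mem_singleton] at hi
      subst hi
      exact (flip_apply_notMem hgD).symm
  have d4 : hammingDist (flip T {g}) (flip (flip T D) {g}) = D.card := by
    rw [flip_comm T D {g}, ham_flip_self]
  have d5 : hammingDist (flip T D) (flip (flip T D) {g}) = 1 := by
    rw [ham_flip_self]; simp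
  -- the lift of flip T D
  obtain ⟨s, hs, hsle, _⟩ := C.lift _ ht hTD rfl
  obtain ⟨s', hs', hs'le, _⟩ := C.lift _ ht hTDg rfl
  rw [d1] at hsle
  rw [d2] at hs'le
  have htt' : hammingDist t (flip t {a}) = 1 := by rw [ham_flip_self]; simp
  -- exact values
  have e2 : D.card + 1 ≤ hammingDist t s' := by
    rcases C.lower ht hs' with h | h <;> rw [d2] at h <;> omega
  have e3 : D.card + 1 ≤ hammingDist (flip t {a}) s := by
    rcases C.lower ht' hs with h | h <;> rw [d3] at h <;> omega
  -- `flip t {a}` and `s'`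
  have e4 : hammingDist (flip t {a}) s' ≤ D.card := by
    obtain ⟨s'', hs'', hle, _⟩ := C.lift _ ht' hTDg rfl
    rw [d4] at hle
    rcases C.uniq_right hs' hs'' with rfl | rfl
    · exact hle
    · exfalso
      have h1 := ham_neg_right (flip t {a}) s'
      have h2 := hammingDist_triangle (flip t {a}) t s'
      rw [hammingDist_comm (flip t {a}) t, htt'] at h2
      omega
  have e5 : hammingDist s s' = 1 := by
    obtain ⟨s'', hs'', h1⟩ := C.adj_lift hs hTDg d5
    rcases C.uniq_right hs' hs'' with rfl | rfl
    · exact h1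
    · exfalso
      have h2 := ham_neg_right s s'
      have h3 := hammingDist_triangle s t s'
      rw [hammingDist_comm s t] at h3
      omega
  obtain ⟨b, hb⟩ := exists_flip_of_ham_one e5
  -- coordinate `a`
  have f1 : t a = s a := by
    by_contra hne
    have := ham_flip_sub (T := t) (S := s) (A := {a}) (by simpa using hne)
    simp only [card_singleton] at this
    omega
  have f2 : t a ≠ s' a := by
    intro heq
    have := ham_flip_add (T := t) (S := s') (A := {a}) (by simpa using heq)
    simp only [card_singleton] at this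
    omega
  have hab : a = b := by
    by_contra hab
    apply f2
    rw [hb, flip_apply_notMem (by simpa using hab)]
    exact f1
  subst hab
  exact ⟨s, hs, by rw [← hb]; exact hs'⟩

/-- An element is good if there is at most one big line through it. -/
def Good (S : Sys ι) (g : ι) : Prop :=
  ∀ h k, h ≠ g → k ≠ g → Fintype.card ι ≤ 2 * (S.line g h).card →
    Fintype.card ι ≤ 2 * (S.line g k).card → S.line g h = S.line g k

theorem Corr.propagate_aux (C : Corr S S' R) (hcard : Fintype.card ι = Fintype.card κ)
    {g h₀ : ι} (hh₀ : ∀ h, h ≠ g → Fintype.card ι ≤ 2 * (S.line g h).card → h₀ ≠ g ∧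
      h₀ ∈ S.line g h) {a : κ} :
    ∀ (k : ℕ) (T U : ι → Bool), hammingDist T U = k → T ∈ S.tope → flip T {g} ∈ S.tope →
      U ∈ S.tope → flip U {g} ∈ S.tope → T g = U g → T h₀ = U h₀ → Lab R T g a → Lab R U g a := by
  intro k
  induction k using Nat.strong_induction_on with
  | _ k ih =>
    intro T U hk hT hTg hU hUg hg hh hlab
    by_cases hTU : T = U
    · rw [← hTU]; exact hlab
    · obtain ⟨h, hhg, hTUh, hline, hm1, hm2⟩ := S.hstep g T U hT hTg hU hUg hg hTU
      have hsmall : 2 * (S.line g h).card < Fintype.card ι := by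
        by_contra hbig
        push Not at hbig
        obtain ⟨h1, h2⟩ := hh₀ h hhg hbig
        exact hline h₀ h2 h1 hh
      have hcardD : ((S.line g h).erase g).card + 1 = (S.line g h).card :=
        Finset.card_erase_add_one (S.mem_left g h)
      have hlab' := C.label (m := (S.line g h).card) hsmall (by omega)
        (Finset.notMem_erase g _) hcardD hm1 hm2 hlab
      have hsub := ham_flip_sub (T := T) (S := U) (A := (S.line g h).erase g) (by
        intro i hi
        rw [mem_erase] at hi
        exact hline i hi.2 hi.1)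
      have hpos : 0 < ((S.line g h).erase g).card := by
        apply Finset.card_pos.mpr
        exact ⟨h, by rw [mem_erase]; exact ⟨hhg, S.mem_right g h⟩⟩
      refine ih _ ?_ (flip T ((S.line g h).erase g)) U rfl hm1 hm2 hU hUg ?_ ?_ hlab'
      · omega
      · rw [flip_apply_notMem (Finset.notMem_erase g _)]; exact hg
      · rw [flip_apply_notMem]
        · exact hh
        · intro hmem
          rw [mem_erase] at hmem
          exact hline h₀ hmem.2 hmem.1 hh

theorem Corr.propagate (C : Corr S S' R) (hcard : Fintype.card ι = Fintype.card κ)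
    {g : ι} (hg : Good S g) {a : κ} {T U : ι → Bool} (hT : T ∈ S.tope)
    (hTg : flip T {g} ∈ S.tope) (hU : U ∈ S.tope) (hUg : flip U {g} ∈ S.tope)
    (hlab : Lab R T g a) : Lab R U g a := by
  classical
  -- choose h₀
  obtain ⟨h₀, hh₀⟩ : ∃ h₀, ∀ h, h ≠ g → Fintype.card ι ≤ 2 * (S.line g h).card → h₀ ≠ g ∧
      h₀ ∈ S.line g h := by
    by_cases hex : ∃ h, h ≠ g ∧ Fintype.card ι ≤ 2 * (S.line g h).card
    · obtain ⟨h₀, h1, h2⟩ := hex
      refine ⟨h₀, fun h h3 h4 => ⟨h1, ?_⟩⟩
      rw [hg h h₀ h3 h1 h4 h2]
      exact S.mem_right g h₀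
    · refine ⟨g, fun h h3 h4 => absurd ⟨h, h3, h4⟩ hex⟩
  -- normalise U
  have key : ∀ U : ι → Bool, U ∈ S.tope → flip U {g} ∈ S.tope → T h₀ = U h₀ → T g = U g →
      Lab R U g a := by
    intro U hU hUg h1 h2
    exact C.propagate_aux hcard hh₀ _ T U rfl hT hTg hU hUg h2 h1 hlab
  have key2 : ∀ U : ι → Bool, U ∈ S.tope → flip U {g} ∈ S.tope → T h₀ = U h₀ →
      Lab R U g a := by
    intro U hU hUg h1
    by_cases h2 : T g = U g
    · exact key U hU hUg h1 h2
    · by_cases hh : h₀ = g
      · subst hh; exact absurd h1 h2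
      · have := key (flip U {g}) hUg (by simpa using hU)
          (by rw [flip_apply_notMem (by simpa using hh)]; exact h1)
          (by
            rw [flip_apply_mem (by simp)]
            revert h2
            cases T g <;> cases U g <;> simp)
        simpa using lab_flip this
  by_cases h1 : T h₀ = U h₀
  · exact key2 U hU hUg h1
  · have := key2 (neg U) (S.neg_mem U hU) (by rw [← neg_flip]; exact S.neg_mem _ hUg) (by
      simp only [neg]
      revert h1
      cases T h₀ <;> cases U h₀ <;> simp)
    simpa using C.lab_neg this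

/-- Two distinct lines through `g` meet only in `g`. -/
theorem line_inter (S : Sys ι) {g h k : ι} (hh : h ≠ g) (hk : k ≠ g)
    (hne : S.line g h ≠ S.line g k) : S.line g h ∩ S.line g k = {g} := by
  ext x
  simp only [mem_inter, mem_singleton]
  constructor
  · rintro ⟨h1, h2⟩
    by_contra hx
    apply hne
    rw [← S.line_unique g h g x (Ne.symm hh) (Ne.symm hx) (S.mem_left g h) h1,
      ← S.line_unique g k g x (Ne.symm hk) (Ne.symm hx) (S.mem_left g k) h2]
  · rintro rfl
    exact ⟨S.mem_left _ _, S.mem_left _ _⟩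

/-- Structure around a bad element. -/
theorem bad_struct (S : Sys ι) {g : ι} (hg : ¬ Good S g) : ∃ h k, h ≠ g ∧ k ≠ g ∧
    S.line g h ≠ S.line g k ∧ Fintype.card ι = 2 * (S.line g h).card ∧
    Fintype.card ι = 2 * (S.line g k).card ∧
    ∃ P, (∀ x, x ≠ P → x ∈ S.line g h ∪ S.line g k) ∧
      ∀ a b, a ∈ S.line g h ∪ S.line g k → b ∈ S.line g h ∪ S.line g k → P ∉ S.line a b := by
  classical
  simp only [Good, not_forall] at hg
  obtain ⟨h, k, hh, hk, hbh, hbk, hne⟩ := hg
  obtain ⟨P, hP⟩ := S.rank3 g h k
  have hPU : P ∉ S.line g h ∪ S.line g k := by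
    intro hmem
    exact hP P P hmem hmem (S.mem_left P P)
  have h1 : (S.line g h ∪ S.line g k).card + 1 = (S.line g h).card + (S.line g k).card := by
    have := Finset.card_union_add_card_inter (S.line g h) (S.line g k)
    rw [line_inter S hh hk hne, card_singleton] at this
    exact this
  have h2 : (insert P (S.line g h ∪ S.line g k)).card ≤ Fintype.card ι := Finset.card_le_univ _
  rw [Finset.card_insert_of_notMem hPU] at h2
  have h3 : insert P (S.line g h ∪ S.line g k) = univ := by
    rw [← Finset.card_eq_iff_eq_univ, Finset.card_insert_of_notMem hPU]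
    omega
  refine ⟨h, k, hh, hk, hne, by omega, by omega, P, ?_, hP⟩
  intro x hx
  have : x ∈ insert P (S.line g h ∪ S.line g k) := by rw [h3]; exact mem_univ x
  rw [Finset.mem_insert] at this
  rcases this with h | h
  · exact absurd h hx
  · exact h

theorem bad_unique (S : Sys ι) (hn : 5 ≤ Fintype.card ι) {g g' : ι} (hg : ¬ Good S g)
    (hg' : ¬ Good S g') : g = g' := by
  classical
  obtain ⟨h, k, hh, hk, hne, hch, hck, P, hP1, hP2⟩ := bad_struct S hg
  obtain ⟨h', k', hh', hk', hne', hch', hck', _, _, _⟩ := bad_struct S hg'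
  -- a line with at least three elements is one of the two
  have key : ∀ x y, x ≠ y → 3 ≤ (S.line x y).card →
      S.line x y = S.line g h ∨ S.line x y = S.line g k := by
    intro x y hxy h3
    have two : ∀ u v, u ≠ v → (∃ a b, a ≠ b ∧ a ∈ S.line x y ∩ S.line u v ∧
        b ∈ S.line x y ∩ S.line u v) → S.line x y = S.line u v := by
      rintro u v huv ⟨a, b, hab, ha, hb⟩
      rw [mem_inter] at ha hb
      rw [← S.line_unique x y a b hxy hab ha.1 hb.1, ← S.line_unique u v a b huv hab ha.2 hb.2]
    have hPn : P ∉ S.line x y := by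
      intro hPmem
      have h4 : 1 < ((S.line x y).erase P).card := by
        rw [Finset.card_erase_of_mem hPmem]; omega
      obtain ⟨a, ha, b, hb, hab⟩ := Finset.one_lt_card.mp h4
      rw [mem_erase] at ha hb
      apply hP2 a b (hP1 a ha.1) (hP1 b hb.1)
      rw [S.line_unique x y a b hxy hab ha.2 hb.2]
      exact hPmem
    have hsub : S.line x y = (S.line x y ∩ S.line g h) ∪ (S.line x y ∩ S.line g k) := by
      rw [← Finset.inter_union_distrib_left]
      symm
      rw [Finset.inter_eq_left]
      intro z hz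
      apply hP1
      rintro rfl
      exact hPn hz
    by_cases c1 : 1 < (S.line x y ∩ S.line g h).card
    · left
      obtain ⟨a, ha, b, hb, hab⟩ := Finset.one_lt_card.mp c1
      exact two g h (Ne.symm hh) ⟨a, b, hab, ha, hb⟩
    · by_cases c2 : 1 < (S.line x y ∩ S.line g k).card
      · right
        obtain ⟨a, ha, b, hb, hab⟩ := Finset.one_lt_card.mp c2
        exact two g k (Ne.symm hk) ⟨a, b, hab, ha, hb⟩
      · exfalso
        have := Finset.card_union_le (S.line x y ∩ S.line g h) (S.line x y ∩ S.line g k)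
        rw [← hsub] at this
        omega
  have h1 := key g' h' (Ne.symm hh') (by omega)
  have h2 := key g' k' (Ne.symm hk') (by omega)
  have h3 : g' ∈ S.line g h ∩ S.line g k := by
    rw [mem_inter]
    rcases h1 with h1 | h1 <;> rcases h2 with h2 | h2
    · exact absurd (h1.trans h2.symm) hne'
    · exact ⟨h1 ▸ S.mem_left _ _, h2 ▸ S.mem_left _ _⟩
    · exact ⟨h2 ▸ S.mem_left _ _, h1 ▸ S.mem_left _ _⟩
    · exact absurd (h1.trans h2.symm) hne'
  rw [line_inter S hh hk hne, mem_singleton] at h3
  exact h3.symm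

end corr

end Pool.Agent.LibMPd06cab
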