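import Mathlib
import Pool.Agent.LibMPd06cab.Core

/-!
Combinatorial core, second part: the signed bijection of labels.
-/

open Finset

namespace Pool.Agent.LibMPd06cab

variable {ι κ : Type*} [Fintype ι] [DecidableEq ι] [Fintype κ] [DecidableEq κ]
variable {S : Sys ι} {S' : Sys κ} {R : (ι → Bool) → (κ → Bool) → Prop}

/-- The two classes agree. -/
def Match (R : (ι → Bool) → (κ → Bool) → Prop) (i : ι) (a : κ) : Prop :=
  ∀ T g b, Lab R T g b → (g = i ↔ b = a)

theorem Match.symm {i : ι} {a : κ} (h : Match R i a) : Match (fun t T => R T t) a i := by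
  rintro t b g ⟨T, hT, hT'⟩
  exact (h T g b ⟨t, hT, hT'⟩).symm

theorem Corr.exists_match (C : Corr S S' R) (hn : 5 ≤ Fintype.card ι) :
    ∃ i a, Match R i a := by
  classical
  have hne : Nonempty ι := Fintype.card_pos_iff.mp (by omega)
  obtain ⟨T, t, hTt⟩ := C.nonempty
  have hcard : Fintype.card ι = Fintype.card κ := C.card_eq (C.left_mem hTt)
  obtain ⟨A, hA3, hA⟩ := S.walls T (C.left_mem hTt)
  have hex : ∀ i : ι, ∃ a : κ, i ∈ A → Lab R T i a := by
    intro i
    by_cases hi : i ∈ A
    · obtain ⟨a, ha⟩ := C.lab_exists (C.left_mem hTt) (hA i hi)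
      exact ⟨a, fun _ => ha⟩
    · have : Nonempty κ := Fintype.card_pos_iff.mp (by omega)
      exact ⟨Classical.arbitrary κ, fun h => absurd h hi⟩
  choose a ha using hex
  have hinj : ∀ i ∈ A, ∀ j ∈ A, a i = a j → i = j := by
    intro i hi j hj hij
    have h1 := ha i hi
    rw [hij] at h1
    exact C.lab_inj (by omega) h1 (ha j hj)
  obtain ⟨i, hiA, hgi, hga⟩ : ∃ i ∈ A, Good S i ∧ Good S' (a i) := by
    by_contra hcon
    push Not at hcon
    have hsub : A ⊆ (A.filter fun i => ¬ Good S i) ∪ (A.filter fun i => ¬ Good S' (a i)) := by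
      intro i hi
      rw [mem_union, mem_filter, mem_filter]
      by_cases hg : Good S i
      · exact Or.inr ⟨hi, hcon i hi hg⟩
      · exact Or.inl ⟨hi, hg⟩
    have h1 : (A.filter fun i => ¬ Good S i).card ≤ 1 := by
      rw [Finset.card_le_one]
      intro x hx y hy
      exact bad_unique S hn (mem_filter.mp hx).2 (mem_filter.mp hy).2
    have h2 : (A.filter fun i => ¬ Good S' (a i)).card ≤ 1 := by
      rw [Finset.card_le_one]
      intro x hx y hy
      exact hinj x (mem_filter.mp hx).1 y (mem_filter.mp hy).1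
        (bad_unique S' (by omega) (mem_filter.mp hx).2 (mem_filter.mp hy).2)
    have h3 := Finset.card_le_card hsub
    have h4 := Finset.card_union_le (A.filter fun i => ¬ Good S i)
      (A.filter fun i => ¬ Good S' (a i))
    omega
  refine ⟨i, a i, ?_⟩
  have hlab := ha i hiA
  have P1 : ∀ U, U ∈ S.tope → flip U {i} ∈ S.tope → Lab R U i (a i) := by
    intro U hU hUi
    exact C.propagate hcard hgi (C.left_mem hTt) (hA i hiA) hU hUi hlab
  have P2 : ∀ u, u ∈ S'.tope → flip u {a i} ∈ S'.tope → Lab (fun t T => R T t) u (a i) i := by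
    intro u hu hui
    have h1 := C.lab_symm hlab hTt
    have h2 := C.right_mem (C.lab_all hlab hTt)
    exact C.symm.propagate hcard.symm hga (C.right_mem hTt) h2 hu hui h1
  intro U g b hUgb
  obtain ⟨u, hu, hu'⟩ := id hUgb
  constructor
  · rintro rfl
    exact C.lab_unique (by omega) hUgb (P1 U (C.left_mem hu) (C.left_mem hu'))
  · rintro rfl
    exact C.symm.lab_unique (by omega) (C.lab_symm hUgb hu)
      (P2 u (C.right_mem hu) (C.right_mem hu'))

/-- normalised correspondence -/
def Nor (R : (ι → Bool) → (κ → Bool) → Prop) (i : ι) (a : κ) (T : ι → Bool) (t : κ → Bool) : Prop :=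
  R T t ∧ t a = T i

theorem Corr.nor_total (C : Corr S S' R) (i : ι) (a : κ) {T : ι → Bool} (hT : T ∈ S.tope) :
    ∃ t, Nor R i a T t := by
  obtain ⟨t, ht⟩ := C.left_total T hT
  by_cases h : t a = T i
  · exact ⟨t, ht, h⟩
  · refine ⟨neg t, C.neg_right ht, ?_⟩
    simp only [neg]
    revert h
    cases t a <;> cases T i <;> simp

theorem Corr.nor_adj (C : Corr S S' R) {i : ι} {a : κ} (hM : Match R i a) {T T' : ι → Bool}
    {t t' : κ → Bool} (h : Nor R i a T t) (h' : Nor R i a T' t') (h1 : hammingDist T T' = 1) :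
    hammingDist t t' = 1 := by
  rcases C.adj h.1 h'.1 h1 with h2 | h2
  · exact h2
  · exfalso
    obtain ⟨g, rfl⟩ := exists_flip_of_ham_one h1
    obtain ⟨b, hb⟩ := exists_flip_of_ham_one h2
    have hlab : Lab R T g b := ⟨t, h.1, by rw [← hb]; exact C.neg_right h'.1⟩
    have hiff := hM T g b hlab
    have e1 : neg t' a = flip t {b} a := congrFun hb a
    have e2 := h.2
    have e3 := h'.2
    by_cases hg : g = i
    · have hba : b = a := hiff.mp hg
      subst hg hba
      rw [flip_apply_mem (by simp)] at e1 e3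
      simp only [neg] at e1
      rw [e3, e2] at e1
      revert e1
      cases T g <;> simp
    · have hba : b ≠ a := fun h => hg (hiff.mpr h)
      rw [flip_apply_notMem (by simpa using Ne.symm hba)] at e1
      rw [flip_apply_notMem (by simpa using Ne.symm hg)] at e3
      simp only [neg] at e1
      rw [e3, e2] at e1
      revert e1
      cases T i <;> simp

theorem Corr.nor_le (C : Corr S S' R) {i : ι} {a : κ} (hM : Match R i a) :
    ∀ (k : ℕ) {T T' : ι → Bool} {t t' : κ → Bool}, Nor R i a T t → Nor R i a T' t' →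
      hammingDist T T' = k → hammingDist t t' ≤ k := by
  intro k
  induction k with
  | zero =>
    intro T T' t t' h h' h0
    rw [hammingDist_eq_zero] at h0
    subst h0
    rcases C.uniq_right h.1 h'.1 with rfl | rfl
    · simp
    · exfalso
      have e1 := h.2
      have e2 := h'.2
      simp only [neg] at e2
      rw [e1] at e2
      revert e2
      cases T i <;> simp
  | succ k ih =>
    intro T T' t t' h h' h0
    have hne : T ≠ T' := by
      intro he
      rw [he, hammingDist_self] at h0
      omega
    obtain ⟨j, hj, hjm⟩ := S.step T (C.left_mem h.1) T' (C.left_mem h'.1) hne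
    obtain ⟨t₁, ht₁⟩ := C.nor_total i a hjm
    have h1 := C.nor_adj hM h ht₁ (by simp [ham_flip_self])
    have h2 := ham_flip_sub (T := T) (S := T') (A := {j}) (by simpa using hj)
    rw [h0] at h2
    simp only [card_singleton, Nat.add_right_cancel_iff] at h2
    have h3 := ih ht₁ h' h2
    have := hammingDist_triangle t t₁ t'
    omega

theorem nor_symm {i : ι} {a : κ} {T : ι → Bool} {t : κ → Bool} (h : Nor R i a T t) :
    Nor (fun t T => R T t) a i t T := ⟨h.1, h.2.symm⟩

theorem Corr.nor_iso (C : Corr S S' R) {i : ι} {a : κ} (hM : Match R i a)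
    {T T' : ι → Bool} {t t' : κ → Bool} (h : Nor R i a T t) (h' : Nor R i a T' t') :
    hammingDist t t' = hammingDist T T' :=
  le_antisymm (C.nor_le hM _ h h' rfl) (C.symm.nor_le hM.symm _ (nor_symm h) (nor_symm h') rfl)

theorem ham_lt_iff {T U : ι → Bool} {g : ι} :
    hammingDist U T < hammingDist U (flip T {g}) ↔ U g = T g := by
  constructor
  · intro h
    by_contra hne
    have := ham_flip_sub (T := T) (S := U) (A := {g}) (by simpa using Ne.symm hne)
    rw [hammingDist_comm _ U, hammingDist_comm _ U] at this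
    omega
  · intro h
    have := ham_flip_add (T := T) (S := U) (A := {g}) (by simpa using h.symm)
    rw [hammingDist_comm _ U, hammingDist_comm _ U] at this
    simp only [card_singleton] at this
    omega

theorem Corr.exists_signed (C : Corr S S' R) {i : ι} {a : κ} (hM : Match R i a) (g : ι) :
    ∃ (b : κ) (c : Bool), ∀ U u, Nor R i a U u → u b = xor (U g) c := by
  obtain ⟨T, hT, hTg⟩ := S.facet g
  obtain ⟨t, ht⟩ := C.nor_total i a hT
  obtain ⟨t', ht'⟩ := C.nor_total i a hTg
  have h1 := C.nor_adj hM ht ht' (by simp [ham_flip_self])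
  obtain ⟨b, rfl⟩ := exists_flip_of_ham_one h1
  refine ⟨b, xor (T g) (t b), ?_⟩
  intro U u hU
  have e1 := C.nor_iso hM hU ht
  have e2 := C.nor_iso hM hU ht'
  have e3 : U g = T g ↔ u b = t b := by
    rw [← ham_lt_iff, ← ham_lt_iff, e1, e2]
  revert e3
  cases U g <;> cases T g <;> cases u b <;> cases t b <;> simp

/-- Main combinatorial theorem. -/
theorem Corr.main (C : Corr S S' R) (hn : 5 ≤ Fintype.card ι) :
    ∃ (π : ι ≃ κ) (s : ι → Bool), ∀ T : ι → Bool,
      T ∈ S.tope ↔ (fun b => xor (T (π.symm b)) (s (π.symm b))) ∈ S'.tope := by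
  classical
  have hne : Nonempty ι := Fintype.card_pos_iff.mp (by omega)
  obtain ⟨T₀, t₀, hTt₀⟩ := C.nonempty
  have hcard : Fintype.card ι = Fintype.card κ := C.card_eq (C.left_mem hTt₀)
  obtain ⟨i, a, hM⟩ := C.exists_match hn
  choose p s hps using fun g => C.exists_signed hM g
  have hinj : Function.Injective p := by
    intro g h hgh
    by_contra hne
    obtain ⟨T, hT, hTg⟩ := S.facet g
    obtain ⟨t, ht⟩ := C.nor_total i a hT
    obtain ⟨t', ht'⟩ := C.nor_total i a hTg
    have e1 := hps g T t ht
    have e2 := hps h T t ht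
    have e3 := hps g _ t' ht'
    have e4 := hps h _ t' ht'
    rw [← hgh] at e2 e4
    rw [flip_apply_mem (by simp)] at e3
    rw [flip_apply_notMem (by simpa using Ne.symm hne)] at e4
    rw [e2] at e1
    rw [e4] at e3
    revert e1 e3
    cases T g <;> cases T h <;> cases s g <;> cases s h <;> simp
  have hbij : Function.Bijective p := (Fintype.bijective_iff_injective_and_card p).mpr ⟨hinj, hcard⟩
  let π : ι ≃ κ := Equiv.ofBijective p hbij
  have hπ : ∀ g, π g = p g := fun _ => rfl
  have hform : ∀ U u, Nor R i a U u → u = fun b => xor (U (π.symm b)) (s (π.symm b)) := by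
    intro U u hU
    funext b
    have := hps (π.symm b) U u hU
    rw [← hπ, Equiv.apply_symm_apply] at this
    exact this
  refine ⟨π, s, ?_⟩
  intro T
  constructor
  · intro hT
    obtain ⟨t, ht⟩ := C.nor_total i a hT
    rw [← hform T t ht]
    exact C.right_mem ht.1
  · intro ht
    obtain ⟨U, hU⟩ := C.symm.nor_total a i ht
    have hU' : Nor R i a U _ := ⟨hU.1, hU.2.symm⟩
    have h1 := hform U _ hU'
    have : T = U := by
      funext g
      have h2 := congrFun h1 (π g)
      simp only [Equiv.symm_apply_apply] at h2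
      revert h2
      cases T g <;> cases U g <;> cases s g <;> simp
    rw [this]
    exact C.left_mem hU.1

end Pool.Agent.LibMPd06cab
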