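import Mathlib
import Pool.Agent.LibMPd06cab.Core2

/-!
Systems of topes of real hyperplane arrangements.
-/

open Finset Filter Topology

namespace Pool.Agent.LibMPd06cab

theorem mul_pos_trans {a b c : ℝ} (h1 : 0 < a * b) (h2 : 0 < b * c) : 0 < a * c := by
  have h3 : 0 < (a * b) * (b * c) := mul_pos h1 h2
  have h4 : (a * b) * (b * c) = (a * c) * (b * b) := by ring
  rw [h4] at h3
  exact pos_of_mul_pos_left h3 (mul_self_nonneg b)

theorem mul_neg_trans {a b c : ℝ} (h1 : a * b < 0) (h2 : 0 < b * c) : a * c < 0 := by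
  have := mul_pos_trans (a := -a) (b := b) (c := c) (by linarith) h2
  linarith

theorem mul_neg_trans' {a b c : ℝ} (h1 : 0 < a * b) (h2 : b * c < 0) : a * c < 0 := by
  have := mul_pos_trans (a := a) (b := b) (c := -c) h1 (by linarith)
  linarith

section gen

variable {W : Type*} [AddCommGroup W] [Module ℝ W] {ι : Type*} [Finite ι]

theorem eventually_small (a b : ℝ) (ha : a ≠ 0) : ∀ᶠ ε : ℝ in 𝓝[>] 0, 0 < (a + ε * b) * a := by
  have h1 : Tendsto (fun ε : ℝ => (a + ε * b) * a) (𝓝[>] 0) (𝓝 ((a + 0 * b) * a)) := by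
    apply Tendsto.mono_left _ nhdsWithin_le_nhds
    exact (Continuous.tendsto (by fun_prop) 0)
  have h2 : 0 < (a + 0 * b) * a := by
    simp only [zero_mul, add_zero]
    exact mul_self_pos.mpr ha
  exact h1.eventually (lt_mem_nhds h2)

theorem eventually_ne (a b : ℝ) (hb : b ≠ 0) : ∀ᶠ ε : ℝ in 𝓝[>] 0, a + ε * b ≠ 0 := by
  by_cases ha : a = 0
  · subst ha
    filter_upwards [self_mem_nhdsWithin] with ε hε
    simp only [zero_add]
    exact mul_ne_zero (ne_of_gt hε) hb
  · filter_upwards [eventually_small a b ha] with ε hε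
    intro h
    rw [h, zero_mul] at hε
    exact lt_irrefl _ hε

/-- Crossing exactly one parallel class. -/
theorem gen_step (φ : ι → W →ₗ[ℝ] ℝ) (x y : W) (hx : ∀ e, φ e x ≠ 0) (hy : ∀ e, φ e y ≠ 0)
    (hsep : ∃ e, φ e x * φ e y < 0) :
    ∃ h, φ h x * φ h y < 0 ∧ ∃ z, ∀ e,
      ((∃ c : ℝ, φ e = c • φ h) → φ e z * φ e x < 0) ∧
      ((¬ ∃ c : ℝ, φ e = c • φ h) → 0 < φ e z * φ e x) := by
  classical
  have := Fintype.ofFinite ι
  let k : ι × ι → W →ₗ[ℝ] ℝ := fun p => φ p.2 y • φ p.1 - φ p.1 y • φ p.2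
  have hk : ∀ e h, k (e, h) = 0 → ∃ c : ℝ, φ e = c • φ h := by
    intro e h h0
    refine ⟨φ e y / φ h y, ?_⟩
    have h1 : φ h y • φ e = φ e y • φ h := by
      simpa [k, sub_eq_zero] using h0
    rw [div_eq_inv_mul, mul_smul, ← h1, smul_smul, inv_mul_cancel₀ (hy h), one_smul]
  obtain ⟨v, hv⟩ := Module.Dual.exists_forall_ne_zero_of_forall_exists
    (ι := {p : ι × ι // k p ≠ 0}) (fun p => k p.1) (by
      rintro ⟨p, hp⟩
      by_contra hcon
      push Not at hcon
      exact hp (LinearMap.ext hcon))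
  have e1 : ∀ᶠ ε : ℝ in 𝓝[>] 0, ∀ e, 0 < (φ e x + ε * φ e v) * φ e x :=
    eventually_all.mpr fun e => eventually_small _ _ (hx e)
  have e2 : ∀ᶠ ε : ℝ in 𝓝[>] 0, ∀ p : {p : ι × ι // k p ≠ 0}, k p.1 x + ε * k p.1 v ≠ 0 :=
    eventually_all.mpr fun p => eventually_ne _ _ (hv p)
  obtain ⟨ε, hε1, hε2⟩ := (e1.and e2).exists
  set x' := x + ε • v with hx'
  have hφx' : ∀ e, φ e x' = φ e x + ε * φ e v := by intro e; simp [hx']
  have hsgn : ∀ e, 0 < φ e x' * φ e x := by intro e; rw [hφx']; exact hε1 e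
  have hsgn' : ∀ e, 0 < φ e x * φ e x' := by intro e; rw [mul_comm]; exact hsgn e
  have hkx' : ∀ e h, (¬ ∃ c : ℝ, φ e = c • φ h) → φ h y * φ e x' ≠ φ e y * φ h x' := by
    intro e h hn
    have h0 : k (e, h) ≠ 0 := fun h0 => hn (hk e h h0)
    have h1 := hε2 ⟨(e, h), h0⟩
    intro heq
    apply h1
    simp only [k, LinearMap.sub_apply, LinearMap.smul_apply, smul_eq_mul]
    rw [hφx', hφx'] at heq
    linarith
  -- separated elements
  let D : Finset ι := univ.filter fun e => φ e x' * φ e y < 0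
  have hD : D.Nonempty := by
    obtain ⟨e, he⟩ := hsep
    exact ⟨e, by simp only [D, mem_filter, mem_univ, true_and]; exact mul_neg_trans' (hsgn e) he⟩
  let t : ι → ℝ := fun e => φ e x' / (φ e x' - φ e y)
  obtain ⟨h, hhD, hmin⟩ := Finset.exists_min_image D t hD
  have hhD' : φ h x' * φ h y < 0 := (mem_filter.mp hhD).2
  have hpos : ∀ e ∈ D, 0 < (φ e x' - φ e y) * φ e x' := by
    intro e he
    have h1 := (mem_filter.mp he).2
    nlinarith [mul_self_nonneg (φ e x')]
  have hden : ∀ e ∈ D, φ e x' - φ e y ≠ 0 := by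
    intro e he h0
    have := hpos e he
    rw [h0, zero_mul] at this
    exact lt_irrefl _ this
  have ht : ∀ e ∈ D, t e * (φ e x' - φ e y) = φ e x' := by
    intro e he
    exact div_mul_cancel₀ _ (hden e he)
  have hval : ∀ e ∈ D, ∀ τ : ℝ, ((1 - τ) * φ e x' + τ * φ e y) * φ e x' =
      (t e - τ) * ((φ e x' - φ e y) * φ e x') := by
    intro e he τ
    have := ht e he
    calc ((1 - τ) * φ e x' + τ * φ e y) * φ e x' = (φ e x' - τ * (φ e x' - φ e y)) * φ e x' := by ring
      _ = (t e * (φ e x' - φ e y) - τ * (φ e x' - φ e y)) * φ e x' := by rw [this]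
      _ = _ := by ring
  have ht01 : 0 < t h ∧ t h < 1 := by
    have h1 := hpos h hhD
    have h2 := ht h hhD
    constructor
    · have h3 : t h * ((φ h x' - φ h y) * φ h x') = φ h x' * φ h x' := by
        rw [← mul_assoc, h2]
      have h4 : 0 < φ h x' * φ h x' := by
        rcases eq_or_ne (φ h x') 0 with h0 | h0
        · rw [h0] at hhD'; simp at hhD'
        · exact mul_self_pos.mpr h0
      rw [← h3] at h4
      exact pos_of_mul_pos_left h4 h1.le
    · have h3 : (1 - t h) * ((φ h x' - φ h y) * φ h x') = - (φ h x' * φ h y) := by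
        have : t h * ((φ h x' - φ h y) * φ h x') = φ h x' * φ h x' := by rw [← mul_assoc, h2]
        linarith
      have h4 : 0 < (1 - t h) * ((φ h x' - φ h y) * φ h x') := by rw [h3]; linarith
      have := pos_of_mul_pos_left h4 h1.le
      linarith
  have hlt : ∀ e ∈ D, (¬ ∃ c : ℝ, φ e = c • φ h) → t h < t e := by
    intro e he hn
    refine lt_of_le_of_ne (hmin e he) ?_
    intro heq
    apply hkx' e h hn
    have h1 := ht e he
    have h2 := ht h hhD
    rw [← heq] at h1
    have h3 := hden e he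
    have h4 := hden h hhD
    -- t * (xe - ye) = xe, t * (xh - yh) = xh
    have h5 : φ e x' * (φ h x' - φ h y) = φ h x' * (φ e x' - φ e y) := by
      rw [← h1, ← h2]
      linear_combination (t h) * 0 * h1 + (- (t h) * (φ h x' - φ h y)) * h1 + ((t h) * (φ e x' - φ e y)) * h2
    linarith
  have ev : ∀ᶠ τ : ℝ in 𝓝[>] (t h), τ < 1 ∧ ∀ e : {e : ι // e ∈ D ∧ ¬ ∃ c : ℝ, φ e = c • φ h},
      τ < t e.1 := by
    apply Filter.Eventually.and
    · exact nhdsWithin_le_nhds (gt_mem_nhds ht01.2)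
    · rw [eventually_all]
      rintro ⟨e, he, hn⟩
      exact nhdsWithin_le_nhds (gt_mem_nhds (hlt e he hn))
  obtain ⟨τ, ⟨hτ1, hτe⟩, hτh⟩ := (ev.and self_mem_nhdsWithin).exists
  have hτh' : t h < τ := hτh
  have hτ0 : 0 < τ := ht01.1.trans hτh'
  have hφz : ∀ e, φ e ((1 - τ) • x' + τ • y) = (1 - τ) * φ e x' + τ * φ e y := by
    intro e; simp
  refine ⟨h, mul_neg_trans' (hsgn' h) hhD', (1 - τ) • x' + τ • y, ?_⟩
  intro e
  constructor
  · rintro ⟨c, hc⟩
    have hc0 : c ≠ 0 := by
      rintro rfl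
      apply hx e
      rw [hc]; simp
    have h1 : φ h ((1 - τ) • x' + τ • y) * φ h x' < 0 := by
      rw [hφz, hval h hhD]
      exact mul_neg_of_neg_of_pos (by linarith) (hpos h hhD)
    have h2 := mul_neg_trans h1 (hsgn h)
    rw [hc]
    simp only [LinearMap.smul_apply, smul_eq_mul]
    have h3 : c * φ h ((1 - τ) • x' + τ • y) * (c * φ h x) =
        (c * c) * (φ h ((1 - τ) • x' + τ • y) * φ h x) := by ring
    rw [h3]
    exact mul_neg_of_pos_of_neg (mul_self_pos.mpr hc0) h2
  · intro hn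
    refine mul_pos_trans ?_ (hsgn e)
    by_cases he : e ∈ D
    · rw [hφz, hval e he]
      exact mul_pos (by have := hτe ⟨e, he, hn⟩; simp only at this; linarith) (hpos e he)
    · have h1 : ¬ φ e x' * φ e y < 0 := by
        intro h1
        exact he (by simp only [D, mem_filter, mem_univ, true_and]; exact h1)
      have h2 : φ e x' ≠ 0 := by
        intro h0
        have := hsgn e
        rw [h0, zero_mul] at this
        exact lt_irrefl _ this
      have h3 : 0 < φ e x' * φ e x' := mul_self_pos.mpr h2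
      rw [hφz]
      have h4 : 0 ≤ φ e x' * φ e y := not_lt.mp h1
      have h5 : 0 < (1 - τ) * (φ e x' * φ e x') := mul_pos (by linarith) h3
      nlinarith [mul_nonneg hτ0.le h4]

end gen

/-- The sign `±1` of a Boolean. -/
def sg (b : Bool) : ℝ := if b then 1 else -1

theorem sg_true : sg true = 1 := rfl
theorem sg_false : sg false = -1 := rfl

theorem sg_not (b : Bool) : sg (!b) = - sg b := by cases b <;> simp [sg]

theorem sg_mul_self (b : Bool) : sg b * sg b = 1 := by cases b <;> simp [sg]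

theorem sg_pos_iff {b c : Bool} : 0 < sg b * sg c ↔ b = c := by
  cases b <;> cases c <;> simp [sg]

/-- The Boolean sign of a nonzero real. -/
noncomputable def bs (r : ℝ) : Bool := decide (0 < r)

theorem bs_pos {r : ℝ} (hr : r ≠ 0) : 0 < sg (bs r) * r := by
  by_cases h : 0 < r
  · simp [bs, h, sg]
  · have : r < 0 := lt_of_le_of_ne (not_lt.mp h) hr
    simp [bs, h, sg, this]

section arr

variable {V : Type*} [AddCommGroup V] [Module ℝ V] {ι : Type*}

/-- `x` has sign vector `T`. -/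
def HasSigns (f : ι → V →ₗ[ℝ] ℝ) (T : ι → Bool) (x : V) : Prop := ∀ i, 0 < sg (T i) * f i x

/-- The set of topes. -/
def topes (f : ι → V →ₗ[ℝ] ℝ) : Set (ι → Bool) := {T | ∃ x, HasSigns f T x}

theorem hasSigns_ne {f : ι → V →ₗ[ℝ] ℝ} {T : ι → Bool} {x : V} (h : HasSigns f T x) (i : ι) :
    f i x ≠ 0 := by
  intro h0
  have := h i
  rw [h0, mul_zero] at this
  exact lt_irrefl _ this

theorem hasSigns_bs {f : ι → V →ₗ[ℝ] ℝ} {x : V} (h : ∀ i, f i x ≠ 0) :
    HasSigns f (fun i => bs (f i x)) x := fun i => bs_pos (h i)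

theorem hasSigns_unique {f : ι → V →ₗ[ℝ] ℝ} {T T' : ι → Bool} {x : V} (h : HasSigns f T x)
    (h' : HasSigns f T' x) : T = T' := by
  funext i
  rw [← sg_pos_iff]
  have h1 := h i
  have h2 := h' i
  rw [mul_comm] at h2
  exact mul_pos_trans h1 h2

theorem hasSigns_neg {f : ι → V →ₗ[ℝ] ℝ} {T : ι → Bool} {x : V} (h : HasSigns f T x) :
    HasSigns f (neg T) (-x) := by
  intro i
  simp only [neg, sg_not, map_neg]
  have := h i
  linarith

/-- signs agree iff product positive -/
theorem hasSigns_mul {f : ι → V →ₗ[ℝ] ℝ} {T S : ι → Bool} {x y : V} (h : HasSigns f T x)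
    (h' : HasSigns f S y) (i : ι) : (T i = S i ↔ 0 < f i x * f i y) ∧
      (T i ≠ S i ↔ f i x * f i y < 0) := by
  have h1 := h i
  have h2 := h' i
  cases hT : T i <;> cases hS : S i <;> rw [hT] at h1 <;> rw [hS] at h2 <;>
    simp only [sg_true, sg_false] at h1 h2
  · have h3 : 0 < f i x * f i y := by nlinarith
    exact ⟨by simp [h3], by simp [h3.le]⟩
  · have h3 : f i x * f i y < 0 := by nlinarith
    exact ⟨by simp [h3.le], by simp [h3]⟩
  · have h3 : f i x * f i y < 0 := by nlinarith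
    exact ⟨by simp [h3.le], by simp [h3]⟩
  · have h3 : 0 < f i x * f i y := by nlinarith
    exact ⟨by simp [h3], by simp [h3.le]⟩

variable [Fintype ι] [DecidableEq ι]

/-- Conditions on a family of linear forms. -/
structure Simple (f : ι → V →ₗ[ℝ] ℝ) : Prop where
  ne_smul : ∀ i j, i ≠ j → ∀ c : ℝ, f i ≠ c • f j
  sep : ∀ x, (∀ i, f i x = 0) → x = 0
  rank : 4 ≤ Module.finrank ℝ V

theorem topes_step {f : ι → V →ₗ[ℝ] ℝ} (hf : Simple f) : ∀ T ∈ topes f, ∀ S ∈ topes f, T ≠ S →
    ∃ i, T i ≠ S i ∧ flip T {i} ∈ topes f := by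
  rintro T ⟨x, hx⟩ S ⟨y, hy⟩ hne
  obtain ⟨e, he⟩ := Function.ne_iff.mp hne
  obtain ⟨h, hh, z, hz⟩ := gen_step f x y (hasSigns_ne hx) (hasSigns_ne hy)
    ⟨e, ((hasSigns_mul hx hy e).2).mp he⟩
  refine ⟨h, ((hasSigns_mul hx hy h).2).mpr hh, z, ?_⟩
  intro i
  by_cases hi : i = h
  · subst hi
    rw [flip_apply_mem (by simp), sg_not]
    have h1 := (hz i).1 ⟨1, by simp⟩
    have h2 := hx i
    rw [mul_comm] at h2
    have h3 := mul_neg_trans (a := f i z) (b := f i x) (c := sg (T i)) h1 h2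
    linarith
  · rw [flip_apply_notMem (by simpa using hi)]
    have h1 := (hz i).2 (by
      rintro ⟨c, hc⟩
      exact hf.ne_smul i h hi c hc)
    have h2 := hx i
    rw [mul_comm] at h2
    have h3 := mul_pos_trans h1 h2
    rw [mul_comm]
    exact h3

omit [DecidableEq ι] in
/-- perturbation off a hyperplane -/
theorem perturb {f : ι → V →ₗ[ℝ] ℝ} {g : ι} (hg : f g ≠ 0) {T : ι → Bool} {x : V}
    (h0 : f g x = 0) (hx : ∀ e, e ≠ g → 0 < sg (T e) * f e x) : T ∈ topes f := by
  classical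
  obtain ⟨u, hu⟩ : ∃ u, f g u ≠ 0 := by
    by_contra hcon
    push Not at hcon
    exact hg (LinearMap.ext hcon)
  -- direction with the right sign
  set w := (sg (T g) * f g u) • u with hw
  have hfw : 0 < sg (T g) * f g w := by
    simp only [hw, map_smul, smul_eq_mul]
    have : sg (T g) * (sg (T g) * f g u * f g u) = (f g u) * (f g u) := by
      rw [mul_assoc (sg (T g)), ← mul_assoc (sg (T g)) (sg (T g)), sg_mul_self, one_mul]
    rw [this]
    exact mul_self_pos.mpr hu
  have ev : ∀ᶠ ε : ℝ in 𝓝[>] 0, ∀ e, 0 < sg (T e) * (f e x + ε * f e w) := by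
    rw [eventually_all]
    intro e
    by_cases he : e = g
    · subst he
      filter_upwards [self_mem_nhdsWithin] with ε hε
      rw [h0, zero_add, ← mul_assoc, mul_comm (sg (T e)) ε, mul_assoc]
      exact mul_pos hε hfw
    · have h1 : f e x ≠ 0 := by
        intro h2
        have := hx e he
        rw [h2, mul_zero] at this
        exact lt_irrefl _ this
      filter_upwards [eventually_small (f e x) (f e w) h1] with ε hε
      have h2 := hx e he
      rw [mul_comm] at hε
      exact mul_pos_trans h2 hε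
  obtain ⟨ε, hε⟩ := ev.exists
  exact ⟨x + ε • w, fun i => by simpa using hε i⟩

omit [Fintype ι] in
/-- A point on a wall. -/
theorem wall_point {f : ι → V →ₗ[ℝ] ℝ} {g : ι} {T : ι → Bool} (hT : T ∈ topes f)
    (hTg : flip T {g} ∈ topes f) : ∃ x, f g x = 0 ∧ ∀ e, e ≠ g → 0 < sg (T e) * f e x := by
  obtain ⟨p, hp⟩ := hT
  obtain ⟨q, hq⟩ := hTg
  have hg1 := hp g
  have hg2 := hq g
  rw [flip_apply_mem (by simp), sg_not] at hg2
  refine ⟨(- (sg (T g) * f g q)) • p + (sg (T g) * f g p) • q, ?_, ?_⟩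
  · simp only [map_add, map_smul, smul_eq_mul]
    ring
  · intro e he
    have h1 := hp e
    have h2 := hq e
    rw [flip_apply_notMem (by simpa using he)] at h2
    simp only [map_add, map_smul, smul_eq_mul]
    have h3 : sg (T e) * (-(sg (T g) * f g q) * f e p + sg (T g) * f g p * f e q) =
        (-(sg (T g) * f g q)) * (sg (T e) * f e p) + (sg (T g) * f g p) * (sg (T e) * f e q) := by
      ring
    rw [h3]
    have h4 : 0 < -(sg (T g) * f g q) := by linarith
    exact add_pos (mul_pos h4 h1) (mul_pos hg1 h2)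

open Classical in
/-- The line through two forms. -/
noncomputable def lineOf (f : ι → V →ₗ[ℝ] ℝ) (g h : ι) : Finset ι :=
  univ.filter fun e => f e ∈ Submodule.span ℝ {f g, f h}

omit [DecidableEq ι] in
theorem mem_lineOf {f : ι → V →ₗ[ℝ] ℝ} {g h e : ι} :
    e ∈ lineOf f g h ↔ f e ∈ Submodule.span ℝ {f g, f h} := by
  simp [lineOf]

theorem Simple.ne_zero {f : ι → V →ₗ[ℝ] ℝ} (hf : Simple f) (i : ι) : f i ≠ 0 := by
  intro h0
  by_cases hex : ∃ j, j ≠ i
  · obtain ⟨j, hj⟩ := hex
    exact hf.ne_smul i j (Ne.symm hj) 0 (by simpa using h0)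
  · push Not at hex
    have hz : ∀ x : V, x = 0 := by
      intro x
      apply hf.sep
      intro j
      rw [hex j, h0]; rfl
    have : Subsingleton V := ⟨fun a b => by rw [hz a, hz b]⟩
    have h1 := hf.rank
    rw [Module.finrank_zero_of_subsingleton] at h1
    omega

omit [Fintype ι] [DecidableEq ι] in
theorem finite_dim {f : ι → V →ₗ[ℝ] ℝ} (hf : Simple f) : FiniteDimensional ℝ V := by
  apply Module.finite_of_finrank_pos
  have := hf.rank
  omega

theorem line_unique' {f : ι → V →ₗ[ℝ] ℝ} (hf : Simple f) (g h a b : ι) (hgh : g ≠ h)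
    (hab : a ≠ b) (ha : a ∈ lineOf f g h) (hb : b ∈ lineOf f g h) :
    lineOf f a b = lineOf f g h := by
  have := finite_dim hf
  rw [mem_lineOf] at ha hb
  have hpair : ∀ u v, u ≠ v → Module.finrank ℝ (Submodule.span ℝ ({f u, f v} : Set (V →ₗ[ℝ] ℝ))) = 2 := by
    intro u v huv
    have hli : LinearIndependent ℝ ![f u, f v] := by
      rw [LinearIndependent.pair_iff' (hf.ne_zero u)]
      intro c hc
      exact hf.ne_smul v u (Ne.symm huv) c hc.symm
    have := finrank_span_eq_card hli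
    rw [Matrix.range_cons_cons_empty] at this
    simpa using this
  have hle : Submodule.span ℝ ({f a, f b} : Set (V →ₗ[ℝ] ℝ)) ≤ Submodule.span ℝ {f g, f h} := by
    rw [Submodule.span_le]
    rintro _ (rfl | rfl)
    · exact ha
    · exact hb
  have heq := Submodule.eq_of_le_of_finrank_eq hle (by rw [hpair a b hab, hpair g h hgh])
  ext e
  rw [mem_lineOf, mem_lineOf, heq]

end arr

end Pool.Agent.LibMPd06cab
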