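import Mathlib
import Pool.Agent.LibMPd06cab.Geom

/-!
The system of topes of a real hyperplane arrangement.
-/

open Finset Filter Topology

namespace Pool.Agent.LibMPd06cab

variable {V : Type*} [AddCommGroup V] [Module ℝ V] {ι : Type*} [Fintype ι] [DecidableEq ι]

omit [Fintype ι] [DecidableEq ι] in
theorem par_iff {f : ι → V →ₗ[ℝ] ℝ} (g h e : ι) :
    (∃ c : ℝ, (f e).domRestrict (LinearMap.ker (f g)) = c • (f h).domRestrict (LinearMap.ker (f g))) ↔
      f e ∈ Submodule.span ℝ {f g, f h} := by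
  rw [Submodule.mem_span_pair]
  constructor
  · rintro ⟨c, hc⟩
    have hker : LinearMap.ker (f g) ≤ LinearMap.ker (f e - c • f h) := by
      intro x hx
      have := LinearMap.congr_fun hc ⟨x, hx⟩
      simp only [LinearMap.domRestrict_apply, LinearMap.smul_apply, smul_eq_mul] at this
      rw [LinearMap.mem_ker, LinearMap.sub_apply, LinearMap.smul_apply, smul_eq_mul, this, sub_self]
    have hmem : f e - c • f h ∈ Submodule.span ℝ (Set.range (fun _ : Unit => f g)) := by
      apply mem_span_of_iInf_ker_le_ker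
      simpa using hker
    rw [Set.range_const, Submodule.mem_span_singleton] at hmem
    obtain ⟨b, hb⟩ := hmem
    exact ⟨b, c, by rw [hb]; abel⟩
  · rintro ⟨b, c, hbc⟩
    refine ⟨c, ?_⟩
    ext ⟨x, hx⟩
    rw [LinearMap.mem_ker] at hx
    simp only [LinearMap.domRestrict_apply, LinearMap.smul_apply, smul_eq_mul]
    rw [← hbc]
    simp [hx]

omit [DecidableEq ι] in
theorem exists_common_zero {f : ι → V →ₗ[ℝ] ℝ} (hf : Simple f) {κ : Type*} [Fintype κ]
    (u : κ → V →ₗ[ℝ] ℝ) (hκ : Fintype.card κ < Module.finrank ℝ V) :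
    ∃ v, v ≠ 0 ∧ ∀ k, u k v = 0 := by
  have := finite_dim hf
  have h1 : ¬ Function.Injective (LinearMap.pi u) := by
    intro hinj
    have := LinearMap.finrank_le_finrank_of_injective hinj
    rw [Module.finrank_fintype_fun_eq_card] at this
    omega
  rw [← LinearMap.ker_eq_bot, Submodule.eq_bot_iff] at h1
  push Not at h1
  obtain ⟨v, hv, hv0⟩ := h1
  refine ⟨v, hv0, fun k => ?_⟩
  exact congrFun (LinearMap.mem_ker.mp hv) k

theorem topes_hstep {f : ι → V →ₗ[ℝ] ℝ} (hf : Simple f) (g : ι) (T S : ι → Bool)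
    (hT : T ∈ topes f) (hTg : flip T {g} ∈ topes f) (hS : S ∈ topes f)
    (hSg : flip S {g} ∈ topes f) (hg : T g = S g) (hne : T ≠ S) :
    ∃ h, h ≠ g ∧ T h ≠ S h ∧ (∀ e ∈ lineOf f g h, e ≠ g → T e ≠ S e) ∧
      flip T ((lineOf f g h).erase g) ∈ topes f ∧
      flip (flip T ((lineOf f g h).erase g)) {g} ∈ topes f := by
  classical
  obtain ⟨x, hx0, hx⟩ := wall_point hT hTg
  obtain ⟨y, hy0, hy⟩ := wall_point hS hSg
  obtain ⟨e₀, he₀⟩ := Function.ne_iff.mp hne
  have he₀g : e₀ ≠ g := by rintro rfl; exact he₀ hg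
  let φ : {e : ι // e ≠ g} → LinearMap.ker (f g) →ₗ[ℝ] ℝ :=
    fun e => (f e.1).domRestrict (LinearMap.ker (f g))
  let x' : LinearMap.ker (f g) := ⟨x, hx0⟩
  let y' : LinearMap.ker (f g) := ⟨y, hy0⟩
  have hφx : ∀ e, φ e x' = f e.1 x := fun e => rfl
  have hφy : ∀ e, φ e y' = f e.1 y := fun e => rfl
  have hxne : ∀ e, e ≠ g → f e x ≠ 0 := by
    intro e he h0
    have := hx e he
    rw [h0, mul_zero] at this
    exact lt_irrefl _ this
  have hyne : ∀ e, e ≠ g → f e y ≠ 0 := by
    intro e he h0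
    have := hy e he
    rw [h0, mul_zero] at this
    exact lt_irrefl _ this
  have hsgn : ∀ e, e ≠ g → (T e ≠ S e ↔ f e x * f e y < 0) := by
    intro e he
    have h1 := hx e he
    have h2 := hy e he
    cases hT : T e <;> cases hS : S e <;> rw [hT] at h1 <;> rw [hS] at h2 <;>
      simp only [sg_true, sg_false] at h1 h2
    · have h3 : 0 < f e x * f e y := by nlinarith
      simp [h3.le]
    · have h3 : f e x * f e y < 0 := by nlinarith
      simp [h3]
    · have h3 : f e x * f e y < 0 := by nlinarith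
      simp [h3]
    · have h3 : 0 < f e x * f e y := by nlinarith
      simp [h3.le]
  obtain ⟨⟨h, hhg⟩, hh, z, hz⟩ := gen_step φ x' y' (fun e => hxne e.1 e.2) (fun e => hyne e.1 e.2)
    ⟨⟨e₀, he₀g⟩, (hsgn e₀ he₀g).mp he₀⟩
  have hh' : f h x * f h y < 0 := hh
  -- signs of z
  have hzs : ∀ e, e ≠ g → 0 < sg (flip T ((lineOf f g h).erase g) e) * f e z := by
    intro e he
    have h1 := hz ⟨e, he⟩
    have h2 := hx e he
    rw [mul_comm] at h2
    by_cases hmem : e ∈ lineOf f g h
    · rw [flip_apply_mem (by rw [mem_erase]; exact ⟨he, hmem⟩), sg_not]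
      have h3 : f e z * f e x < 0 := h1.1 ((par_iff g h e).mpr (mem_lineOf.mp hmem))
      have h4 := mul_neg_trans h3 h2
      linarith
    · rw [flip_apply_notMem (by rw [mem_erase]; exact fun hc => hmem hc.2)]
      have h3 : 0 < f e z * f e x := h1.2 (fun hc => hmem (mem_lineOf.mpr ((par_iff g h e).mp hc)))
      have h4 := mul_pos_trans h3 h2
      linarith
  have hz0 : f g z = 0 := z.2
  refine ⟨h, hhg, (hsgn h hhg).mpr hh', ?_, ?_, ?_⟩
  · intro e he heg
    obtain ⟨c, hc⟩ := (par_iff g h e).mpr (mem_lineOf.mp he)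
    rw [hsgn e heg]
    have h1 : f e x = c * f h x := LinearMap.congr_fun hc x'
    have h2 : f e y = c * f h y := LinearMap.congr_fun hc y'
    have hc0 : c ≠ 0 := by
      rintro rfl
      apply hxne e heg
      rw [h1, zero_mul]
    rw [h1, h2]
    have h3 : c * f h x * (c * f h y) = (c * c) * (f h x * f h y) := by ring
    rw [h3]
    exact mul_neg_of_pos_of_neg (mul_self_pos.mpr hc0) hh'
  · exact perturb (hf.ne_zero g) hz0 hzs
  · refine perturb (hf.ne_zero g) hz0 ?_
    intro e he
    rw [flip_apply_notMem (by simpa using he)]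
    exact hzs e he

theorem topes_rank3 {f : ι → V →ₗ[ℝ] ℝ} (hf : Simple f) (g h k : ι) :
    ∃ P, ∀ a b, a ∈ lineOf f g h ∪ lineOf f g k → b ∈ lineOf f g h ∪ lineOf f g k →
      P ∉ lineOf f a b := by
  obtain ⟨v, hv0, hv⟩ := exists_common_zero hf ![f g, f h, f k] (by
    have := hf.rank
    simp only [Fintype.card_fin]
    omega)
  have hg : f g v = 0 := hv 0
  have hh : f h v = 0 := hv 1
  have hk : f k v = 0 := hv 2
  obtain ⟨P, hP⟩ : ∃ P, f P v ≠ 0 := by
    by_contra hcon
    push Not at hcon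
    exact hv0 (hf.sep v hcon)
  have hU : ∀ a, a ∈ lineOf f g h ∪ lineOf f g k → f a v = 0 := by
    intro a ha
    rw [mem_union, mem_lineOf, mem_lineOf, Submodule.mem_span_pair, Submodule.mem_span_pair] at ha
    rcases ha with ⟨b, c, hbc⟩ | ⟨b, c, hbc⟩
    · rw [← hbc]; simp [hg, hh]
    · rw [← hbc]; simp [hg, hk]
  refine ⟨P, fun a b ha hb hmem => ?_⟩
  rw [mem_lineOf, Submodule.mem_span_pair] at hmem
  obtain ⟨c, d, hcd⟩ := hmem
  apply hP
  rw [← hcd]
  simp [hU a ha, hU b hb]

theorem topes_walls {f : ι → V →ₗ[ℝ] ℝ} (hf : Simple f) :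
    ∀ T ∈ topes f, ∃ A : Finset ι, 3 ≤ A.card ∧ ∀ i ∈ A, flip T {i} ∈ topes f := by
  classical
  intro T hT
  refine ⟨univ.filter fun i => flip T {i} ∈ topes f, ?_, fun i hi => (mem_filter.mp hi).2⟩
  by_contra hlt
  push Not at hlt
  obtain ⟨v, hv0, hv⟩ := exists_common_zero hf
    (κ := {i // i ∈ univ.filter fun i => flip T {i} ∈ topes f}) (fun i => f i.1) (by
      have := hf.rank
      rw [Fintype.card_coe]
      omega)
  obtain ⟨e₀, he₀⟩ : ∃ P, f P v ≠ 0 := by
    by_contra hcon
    push Not at hcon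
    exact hv0 (hf.sep v hcon)
  obtain ⟨x, hx⟩ := id hT
  set w := (-(f e₀ x / f e₀ v)) • v with hw
  have hw0 : f e₀ w = - f e₀ x := by
    rw [hw, map_smul, smul_eq_mul, neg_mul, div_mul_cancel₀ _ he₀]
  have ev : ∀ᶠ K : ℝ in atTop, 1 < K ∧ ∀ e, f e x + K * f e w ≠ 0 := by
    apply Filter.Eventually.and (eventually_gt_atTop 1)
    rw [eventually_all]
    intro e
    by_cases h0 : f e w = 0
    · filter_upwards with K
      rw [h0, mul_zero, add_zero]
      exact hasSigns_ne hx e
    · filter_upwards [eventually_ne_atTop (- f e x / f e w)] with K hK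
      intro h1
      apply hK
      rw [eq_div_iff h0]
      linarith
  obtain ⟨K, hK1, hK⟩ := ev.exists
  have hy : ∀ e, f e (x + K • w) ≠ 0 := by
    intro e
    simpa using hK e
  have hS := hasSigns_bs hy
  set S : ι → Bool := fun i => bs (f i (x + K • w)) with hSdef
  have hST : T ≠ S := by
    intro heq
    rw [← heq] at hS
    have h1 := (hasSigns_mul hx hS e₀).1.mp rfl
    simp only [map_add, map_smul, smul_eq_mul, hw0] at h1
    have h2 : 0 < f e₀ x * f e₀ x := mul_self_pos.mpr (hasSigns_ne hx e₀)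
    nlinarith
  obtain ⟨i, hi, him⟩ := topes_step hf T hT S ⟨_, hS⟩ hST
  apply hi
  rw [(hasSigns_mul hx hS i).1]
  have h3 : f i v = 0 := hv ⟨i, by simp [him]⟩
  have h4 : f i w = 0 := by rw [hw, map_smul, h3, smul_zero]
  rw [map_add, map_smul, h4, smul_zero, add_zero]
  exact mul_self_pos.mpr (hasSigns_ne hx i)

theorem topes_facet {f : ι → V →ₗ[ℝ] ℝ} (hf : Simple f) (g : ι) :
    ∃ T ∈ topes f, flip T {g} ∈ topes f := by
  classical
  obtain ⟨x, hx0, hx⟩ := Module.Dual.exists_forall_mem_ne_zero_of_forall_exists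
    (LinearMap.ker (f g)) (fun e : {e : ι // e ≠ g} => f e.1) (by
      rintro ⟨e, he⟩
      by_contra hcon
      push Not at hcon
      have hmem : f e ∈ Submodule.span ℝ (Set.range (fun _ : Unit => f g)) := by
        apply mem_span_of_iInf_ker_le_ker
        intro x hx
        exact hcon x (by simpa using hx)
      rw [Set.range_const, Submodule.mem_span_singleton] at hmem
      obtain ⟨b, hb⟩ := hmem
      exact hf.ne_smul e g he b hb.symm)
  have hx' : ∀ e, e ≠ g → 0 < sg (bs (f e x)) * f e x := fun e he => bs_pos (hx ⟨e, he⟩)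
  refine ⟨fun e => bs (f e x), perturb (hf.ne_zero g) hx0 hx', perturb (hf.ne_zero g) hx0 ?_⟩
  intro e he
  rw [flip_apply_notMem (by simpa using he)]
  exact hx' e he

/-- The system of topes of an arrangement. -/
noncomputable def sysOf {f : ι → V →ₗ[ℝ] ℝ} (hf : Simple f) : Sys ι where
  tope := topes f
  neg_mem := by
    rintro T ⟨x, hx⟩
    exact ⟨-x, hasSigns_neg hx⟩
  step := topes_step hf
  line := lineOf f
  mem_left := fun g h => mem_lineOf.mpr (Submodule.subset_span (by simp))
  mem_right := fun g h => mem_lineOf.mpr (Submodule.subset_span (by simp))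
  line_unique := line_unique' hf
  hstep := topes_hstep hf
  rank3 := topes_rank3 hf
  walls := topes_walls hf
  facet := topes_facet hf

omit [DecidableEq ι] in
theorem rank_le_card {f : ι → V →ₗ[ℝ] ℝ} (hf : Simple f) :
    Module.finrank ℝ V ≤ Fintype.card ι := by
  by_contra hlt
  push Not at hlt
  obtain ⟨v, hv0, hv⟩ := exists_common_zero hf f hlt
  exact hv0 (hf.sep v hv)

omit [DecidableEq ι] in
/-- When the number of hyperplanes equals the dimension, all sign vectors are topes. -/
theorem topes_univ {f : ι → V →ₗ[ℝ] ℝ} (hf : Simple f)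
    (hcard : Fintype.card ι = Module.finrank ℝ V) (T : ι → Bool) : T ∈ topes f := by
  have := finite_dim hf
  have hinj : Function.Injective (LinearMap.pi f) := by
    rw [← LinearMap.ker_eq_bot, Submodule.eq_bot_iff]
    intro x hx
    exact hf.sep x (fun i => congrFun (LinearMap.mem_ker.mp hx) i)
  have hsurj : Function.Surjective (LinearMap.pi f) :=
    (LinearMap.injective_iff_surjective_of_finrank_eq_finrank (by
      rw [Module.finrank_fintype_fun_eq_card, hcard])).mp hinj
  obtain ⟨x, hx⟩ := hsurj (fun i => sg (T i))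
  refine ⟨x, fun i => ?_⟩
  have := congrFun hx i
  simp only [LinearMap.pi_apply] at this
  rw [this, sg_mul_self]
  exact one_pos

end Pool.Agent.LibMPd06cab
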