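import Mathlib
import Pool.Agent.LibMPd06cab.Geom2

/-!
Covectors are determined by topes.
-/

open Finset Filter Topology

namespace Pool.Agent.LibMPd06cab

variable {V : Type*} [NormedAddCommGroup V] [NormedSpace ℝ V] [FiniteDimensional ℝ V]
variable {ι : Type*} [Fintype ι] [DecidableEq ι]

/-- The sign vector of a point. -/
noncomputable def sv (f : ι → V →ₗ[ℝ] ℝ) (x : V) : ι → SignType := fun i => SignType.sign (f i x)

/-- Composition of a sign vector and a tope. -/
def comp (σ : ι → SignType) (T : ι → Bool) : ι → Bool :=
  fun i => if σ i = 0 then T i else decide (σ i = 1)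

omit [Fintype ι] [DecidableEq ι] in
theorem comp_zero {σ : ι → SignType} {T : ι → Bool} {i : ι} (h : σ i = 0) : comp σ T i = T i := by
  simp [comp, h]

omit [Fintype ι] [DecidableEq ι] in
theorem comp_one {σ : ι → SignType} {T : ι → Bool} {i : ι} (h : σ i = 1) :
    comp σ T i = true := by
  simp [comp, h]

omit [Fintype ι] [DecidableEq ι] in
theorem comp_neg_one {σ : ι → SignType} {T : ι → Bool} {i : ι} (h : σ i = -1) :
    comp σ T i = false := by
  simp [comp, h]

omit [DecidableEq ι] in
theorem comp_mem {f : ι → V →ₗ[ℝ] ℝ} {x : V} {T : ι → Bool} (hT : T ∈ topes f) :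
    comp (sv f x) T ∈ topes f := by
  obtain ⟨y, hy⟩ := hT
  have ev : ∀ᶠ ε : ℝ in 𝓝[>] 0, ∀ i, 0 < sg (comp (sv f x) T i) * (f i x + ε * f i y) := by
    rw [eventually_all]
    intro i
    rcases lt_trichotomy (f i x) 0 with h | h | h
    · have h1 : sv f x i = -1 := sign_eq_neg_one_iff.mpr h
      filter_upwards [eventually_small (f i x) (f i y) h.ne] with ε hε
      rw [comp_neg_one h1, sg_false]
      nlinarith
    · have h1 : sv f x i = 0 := sign_eq_zero_iff.mpr h
      filter_upwards [self_mem_nhdsWithin] with ε hε
      rw [comp_zero h1, h, zero_add, ← mul_assoc, mul_comm (sg (T i)) ε, mul_assoc]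
      exact mul_pos hε (hy i)
    · have h1 : sv f x i = 1 := sign_eq_one_iff.mpr h
      filter_upwards [eventually_small (f i x) (f i y) h.ne'] with ε hε
      rw [comp_one h1, sg_true]
      nlinarith
  obtain ⟨ε, hε⟩ := ev.exists
  exact ⟨x + ε • y, fun i => by simpa using hε i⟩

omit [FiniteDimensional ℝ V] [Fintype ι] [DecidableEq ι] [NormedAddCommGroup V] [NormedSpace ℝ V] in
/-- Linearly independent forms take arbitrary values. -/
theorem exists_values {V : Type*} [AddCommGroup V] [Module ℝ V] {κ : Type*} [Finite κ]
    {u : κ → V →ₗ[ℝ] ℝ} (hu : LinearIndependent ℝ u) (t : κ → ℝ) : ∃ y, ∀ k, u k y = t k := by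
  classical
  have := Fintype.ofFinite κ
  by_contra hcon
  have hnot : t ∉ LinearMap.range (LinearMap.pi u) := by
    rintro ⟨y, hy⟩
    exact hcon ⟨y, fun k => congrFun hy k⟩
  obtain ⟨φ, hφ, hker⟩ := Submodule.exists_le_ker_of_notMem hnot
  have hφ' : ∀ w : κ → ℝ, φ w = ∑ k, w k * φ (Pi.single k 1) := by
    intro w
    conv_lhs => rw [pi_eq_sum_univ' w]
    rw [map_sum]
    apply Finset.sum_congr rfl
    intro k _
    rw [map_smul, smul_eq_mul]
  have hzero : ∑ k, (φ (Pi.single k 1)) • u k = 0 := by
    apply LinearMap.ext
    intro y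
    have h1 := hker ⟨y, rfl⟩
    rw [LinearMap.mem_ker, hφ'] at h1
    rw [LinearMap.sum_apply]
    simp only [LinearMap.smul_apply, smul_eq_mul, LinearMap.zero_apply]
    rw [← h1]
    apply Finset.sum_congr rfl
    intro k _
    simp [mul_comm]
  have hcoef := Fintype.linearIndependent_iff.mp hu _ hzero
  apply hφ
  rw [hφ' t]
  apply Finset.sum_eq_zero
  intro k _
  rw [hcoef k, mul_zero]

omit [DecidableEq ι] in
/-- Covectors from topes. -/
theorem covector_of_comp {f : ι → V →ₗ[ℝ] ℝ} {σ : ι → SignType} (hne : (topes f).Nonempty)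
    (h : ∀ T ∈ topes f, comp σ T ∈ topes f) : ∃ x, sv f x = σ := by
  classical
  -- the open cone and the subspace
  let K : Set V := {x | ∀ i, (σ i = 1 → 0 < f i x) ∧ (σ i = -1 → f i x < 0)}
  let L : Submodule ℝ V := ⨅ i : {i : ι // σ i = 0}, LinearMap.ker (f i.1)
  have hcont : ∀ i, Continuous (f i) := fun i => LinearMap.continuous_of_finiteDimensional (f i)
  by_cases hdisj : Disjoint K (L : Set V)
  · exfalso
    have hKc : Convex ℝ K := by
      intro x hx y hy a b ha hb hab i
      simp only [map_add, map_smul, smul_eq_mul]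
      constructor
      · intro hi
        have h1 := (hx i).1 hi
        have h2 := (hy i).1 hi
        rcases eq_or_lt_of_le ha with rfl | ha'
        · have : b = 1 := by linarith
          subst this
          simpa using h2
        · have : 0 < a * f i x := mul_pos ha' h1
          have : 0 ≤ b * f i y := mul_nonneg hb h2.le
          linarith
      · intro hi
        have h1 := (hx i).2 hi
        have h2 := (hy i).2 hi
        rcases eq_or_lt_of_le ha with rfl | ha'
        · have : b = 1 := by linarith
          subst this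
          simpa using h2
        · have : a * f i x < 0 := mul_neg_of_pos_of_neg ha' h1
          have : b * f i y ≤ 0 := mul_nonpos_of_nonneg_of_nonpos hb h2.le
          linarith
    have hKo : IsOpen K := by
      have : K = ⋂ i, {x | (σ i = 1 → 0 < f i x) ∧ (σ i = -1 → f i x < 0)} := by
        ext x; simp [K]
      rw [this]
      apply isOpen_iInter_of_finite
      intro i
      have himp : ∀ (P : Prop) (A : Set V), IsOpen A → IsOpen {x | P → x ∈ A} := by
        intro P A hA
        by_cases hP : P
        · have : {x | P → x ∈ A} = A := by ext x; exact ⟨fun h => h hP, fun h _ => h⟩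
          rw [this]; exact hA
        · have : {x | P → x ∈ A} = Set.univ := by
            ext x; exact ⟨fun _ => trivial, fun _ h => absurd h hP⟩
          rw [this]; exact isOpen_univ
      exact (himp _ _ (isOpen_lt continuous_const (hcont i))).inter
        (himp _ _ (isOpen_lt (hcont i) continuous_const))
    obtain ⟨g, u, hgK, hgL⟩ := geometric_hahn_banach_open hKc hKo L.convex hdisj
    have hu : u ≤ 0 := by simpa using hgL 0 L.zero_mem
    have hL0 : ∀ b ∈ L, g b = 0 := by
      intro b hb
      by_contra hgb
      have h1 := hgL (((u - 1) / g b) • b) (L.smul_mem _ hb)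
      rw [map_smul, smul_eq_mul, div_mul_cancel₀ _ hgb] at h1
      linarith
    -- `g` as a combination of the forms vanishing on `L`
    have hspan : (g : V →ₗ[ℝ] ℝ) ∈ Submodule.span ℝ
        (Set.range (fun i : {i : ι // σ i = 0} => f i.1)) := by
      apply mem_span_of_iInf_ker_le_ker
      intro x hx
      exact hL0 x hx
    obtain ⟨κ, a, ha, hspan2, hli⟩ := exists_linearIndependent' ℝ
      (fun i : {i : ι // σ i = 0} => f i.1)
    rw [← hspan2] at hspan
    have hκ : Finite κ := Finite.of_injective a ha
    have := Fintype.ofFinite κ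
    rw [Submodule.mem_span_range_iff_exists_fun] at hspan
    obtain ⟨c, hc⟩ := hspan
    obtain ⟨y, hy⟩ := exists_values hli c
    obtain ⟨T₀, w, hw⟩ := hne
    have ev : ∀ᶠ ε : ℝ in 𝓝[>] 0, (∀ i, f i y + ε * f i w ≠ 0) ∧
        ∀ i, f i y ≠ 0 → 0 < (f i y + ε * f i w) * f i y := by
      apply Filter.Eventually.and
      · rw [eventually_all]
        intro i
        exact eventually_ne _ _ (hasSigns_ne hw i)
      · rw [eventually_all]
        intro i
        by_cases h0 : f i y = 0
        · filter_upwards with ε h1
          exact absurd h0 h1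
        · filter_upwards [eventually_small (f i y) (f i w) h0] with ε hε _
          exact hε
    obtain ⟨ε, hε1, hε2⟩ := ev.exists
    have hz : ∀ i, f i (y + ε • w) ≠ 0 := fun i => by simpa using hε1 i
    have hT := hasSigns_bs hz
    obtain ⟨x', hx'⟩ := h _ ⟨_, hT⟩
    -- x' lies in K
    have hx'K : x' ∈ K := by
      intro i
      constructor
      · intro hi
        have := hx' i
        rw [comp_one hi, sg_true, one_mul] at this
        exact this
      · intro hi
        have := hx' i
        rw [comp_neg_one hi, sg_false] at this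
        linarith
    have h1 : g x' < 0 := lt_of_lt_of_le (hgK x' hx'K) hu
    have h2 : g x' = ∑ k, c k * f (a k).1 x' := by
      have := LinearMap.congr_fun hc x'
      rw [LinearMap.sum_apply] at this
      exact this.symm
    have h4 : ∀ k, 0 ≤ c k * f (a k).1 x' := by
      intro k
      by_cases hck : c k = 0
      · rw [hck, zero_mul]
      · have hyk : f (a k).1 y = c k := hy k
        have e1 := hε2 (a k).1 (by rw [hyk]; exact hck)
        have e2 := hx' (a k).1
        rw [comp_zero (a k).2] at e2
        have e3 := hT (a k).1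
        have e4 : 0 < f (a k).1 x' * f (a k).1 (y + ε • w) := by
          have e5 : 0 < f (a k).1 x' * sg (bs (f (a k).1 (y + ε • w))) := by
            rw [mul_comm]; exact e2
          exact mul_pos_trans e5 e3
        have e6 : f (a k).1 (y + ε • w) = f (a k).1 y + ε * f (a k).1 w := by simp
        rw [e6] at e4
        have e7 := mul_pos_trans e4 e1
        rw [hyk] at e7
        nlinarith
    have h5 : 0 ≤ g x' := by rw [h2]; exact Finset.sum_nonneg (fun k _ => h4 k)
    linarith
  · rw [Set.not_disjoint_iff] at hdisj
    obtain ⟨x, hxK, hxL⟩ := hdisj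
    refine ⟨x, ?_⟩
    funext i
    rcases hs : σ i with _ | _ | _
    · have hmem : x ∈ LinearMap.ker (f i) := by
        have := (Submodule.mem_iInf _).mp hxL ⟨i, hs⟩
        exact this
      exact sign_eq_zero_iff.mpr hmem
    · exact sign_eq_neg_one_iff.mpr ((hxK i).2 hs)
    · exact sign_eq_one_iff.mpr ((hxK i).1 hs)

end Pool.Agent.LibMPd06cab
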