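import Mathlib

/-!
Hyperplane arrangements in real projective space, their faces and cell-adjacency graphs.
-/

namespace Pool.Agent.LibMPd06cab

/-- Real projective `d`-space: the lines through the origin of `ℝ^(d+1)`. -/
def PSpace (d : ℕ) : Type := Projectivization ℝ (Fin (d + 1) → ℝ)

/-- The point with homogeneous coordinates `v`. -/
noncomputable def pt {d : ℕ} (v : {v : Fin (d + 1) → ℝ // v ≠ 0}) : PSpace d := Projectivization.mk ℝ v.1 v.2

/-- Real projective space carries the quotient topology of the nonzero vectors. -/
noncomputable instance (d : ℕ) : TopologicalSpace (PSpace d) :=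
  TopologicalSpace.coinduced pt inferInstance

/-- The point `p` lies on the projective hyperplane (subspace) given by the subspace `H`. -/
def LiesOn {d : ℕ} (p : PSpace d) (H : Submodule ℝ (Fin (d + 1) → ℝ)) : Prop :=
  Projectivization.submodule p ≤ H

/-- A `d`-arrangement: a finite set of hyperplanes of projective `d`-space such that no point
lies on all of them. -/
structure Arrangement (d : ℕ) where
  /-- the hyperplanes, as linear hyperplanes of `ℝ^(d+1)` -/
  hyps : Set (Submodule ℝ (Fin (d + 1) → ℝ))
  finite : hyps.Finite
  isHyperplane : ∀ H ∈ hyps, Module.finrank ℝ H = d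
  noCommonPoint : ¬ ∃ p : PSpace d, ∀ H ∈ hyps, LiesOn p H

variable {d : ℕ}

/-- The points lying on exactly the same hyperplanes of the arrangement as `p`. -/
def stratum (A : Arrangement d) (p : PSpace d) : Set (PSpace d) :=
  {q | ∀ H ∈ A.hyps, LiesOn q H ↔ LiesOn p H}

/-- The face (relatively open cell) of the arrangement that contains `p`: the connected component
of `p` in the set of points lying on exactly the same hyperplanes as `p`. -/
def face (A : Arrangement d) (p : PSpace d) : Set (PSpace d) :=
  connectedComponentIn (stratum A p) p

/-- The intersection of the hyperplanes through `p`, as a linear subspace. -/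
def flat (A : Arrangement d) (p : PSpace d) : Submodule ℝ (Fin (d + 1) → ℝ) :=
  sInf {H | H ∈ A.hyps ∧ LiesOn p H}

/-- `F` is a face of the arrangement. -/
def IsFace (A : Arrangement d) (F : Set (PSpace d)) : Prop := ∃ p, F = face A p

/-- `F` is a `k`-face: a face spanning a projective subspace of dimension `k`, that is, a linear
subspace of dimension `k + 1`. -/
def IsKFace (A : Arrangement d) (k : ℕ) (F : Set (PSpace d)) : Prop :=
  ∃ p, F = face A p ∧ Module.finrank ℝ (flat A p) = k + 1

/-- The cell-adjacency graph: the vertices are the `d`-cells, two of them being adjacent when they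
share a common `(d-1)`-face. -/
def cellGraph (A : Arrangement d) : SimpleGraph {F : Set (PSpace d) // IsKFace A d F} where
  Adj F G := F ≠ G ∧ ∃ K, IsKFace A (d - 1) K ∧ K ⊆ closure F.1 ∧ K ⊆ closure G.1
  symm := ⟨fun _ _ h => ⟨h.1.symm, h.2.choose, h.2.choose_spec.1, h.2.choose_spec.2.2,
    h.2.choose_spec.2.1⟩⟩
  loopless := ⟨fun _ h => h.1 rfl⟩

/-- Combinatorial equivalence: a bijection between the sets of faces that preserves incidence (the
relation of being contained in the closure) in both directions. -/
def Equivalent (A B : Arrangement d) : Prop :=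
  ∃ e : {F : Set (PSpace d) // IsFace A F} ≃ {F : Set (PSpace d) // IsFace B F},
    ∀ F G, F.1 ⊆ closure G.1 ↔ (e F).1 ⊆ closure (e G).1

end Pool.Agent.LibMPd06cab
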