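import Mathlib
import Pool.Agent.LibMPd06cab.Covec

/-!
From a correspondence of topes to a bijection of covectors.
-/

open Finset Filter Topology

namespace Pool.Agent.LibMPd06cab

variable {V : Type*} [NormedAddCommGroup V] [NormedSpace ℝ V] [FiniteDimensional ℝ V]
variable {V' : Type*} [NormedAddCommGroup V'] [NormedSpace ℝ V'] [FiniteDimensional ℝ V']
variable {ι κ : Type*} [Fintype ι] [DecidableEq ι] [Fintype κ] [DecidableEq κ]

/-- Signed relabelling of sign vectors. -/
def tr (π : ι ≃ κ) (s : ι → Bool) (σ : ι → SignType) : κ → SignType :=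
  fun b => if s (π.symm b) then - σ (π.symm b) else σ (π.symm b)

omit [Fintype ι] [DecidableEq ι] [Fintype κ] [DecidableEq κ] in
theorem comp_tr (π : ι ≃ κ) (s : ι → Bool) (σ : ι → SignType) (T : ι → Bool) :
    comp (tr π s σ) (fun b => xor (T (π.symm b)) (s (π.symm b))) =
      fun b => xor (comp σ T (π.symm b)) (s (π.symm b)) := by
  funext b
  set i := π.symm b with hi
  rcases hs : σ i with _ | _ | _ <;> cases hsi : s i
  · have h1 : tr π s σ b = 0 := by simp [tr, ← hi, hsi, hs]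
    have h2 : σ i = 0 := hs
    rw [comp_zero h1, comp_zero h2, ← hi, hsi]
  · have h1 : tr π s σ b = 0 := by simp [tr, ← hi, hsi, hs]
    have h2 : σ i = 0 := hs
    rw [comp_zero h1, comp_zero h2, ← hi, hsi]
  · have h1 : tr π s σ b = -1 := by simp [tr, ← hi, hsi, hs]
    have h2 : σ i = -1 := hs
    rw [comp_neg_one h1, comp_neg_one h2]; rfl
  · have h1 : tr π s σ b = 1 := by simp [tr, ← hi, hsi, hs]
    have h2 : σ i = -1 := hs
    rw [comp_one h1, comp_neg_one h2]; rfl
  · have h1 : tr π s σ b = 1 := by simp [tr, ← hi, hsi, hs]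
    have h2 : σ i = 1 := hs
    rw [comp_one h1, comp_one h2]; rfl
  · have h1 : tr π s σ b = -1 := by simp [tr, ← hi, hsi, hs]
    have h2 : σ i = 1 := hs
    rw [comp_neg_one h1, comp_one h2]; rfl

omit [DecidableEq ι] in
theorem covector_iff {f : ι → V →ₗ[ℝ] ℝ} (hne : (topes f).Nonempty) (σ : ι → SignType) :
    (∃ x, sv f x = σ) ↔ ∀ T ∈ topes f, comp σ T ∈ topes f := by
  constructor
  · rintro ⟨x, rfl⟩ T hT
    exact comp_mem hT
  · exact covector_of_comp hne

theorem exists_relabel {f : ι → V →ₗ[ℝ] ℝ} {f' : κ → V' →ₗ[ℝ] ℝ} (hf : Simple f)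
    (hf' : Simple f') (hdim : Module.finrank ℝ V = Module.finrank ℝ V')
    {R : (ι → Bool) → (κ → Bool) → Prop} (C : Corr (sysOf hf) (sysOf hf') R) :
    ∃ (π : ι ≃ κ) (s : ι → Bool), ∀ σ : ι → SignType,
      (∃ x, sv f x = σ) ↔ (∃ y, sv f' y = tr π s σ) := by
  have hcι := rank_le_card hf
  have hr := hf.rank
  have hne : Nonempty ι := Fintype.card_pos_iff.mp (by omega)
  obtain ⟨T₀, t₀, hTt₀⟩ := C.nonempty
  have hT₀ : T₀ ∈ topes f := C.left_mem hTt₀
  have ht₀ : t₀ ∈ topes f' := C.right_mem hTt₀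
  have hcard : Fintype.card ι = Fintype.card κ := C.card_eq hT₀
  obtain ⟨π, s, hπ⟩ : ∃ (π : ι ≃ κ) (s : ι → Bool), ∀ T : ι → Bool,
      T ∈ topes f ↔ (fun b => xor (T (π.symm b)) (s (π.symm b))) ∈ topes f' := by
    by_cases h5 : 5 ≤ Fintype.card ι
    · exact C.main h5
    · refine ⟨Fintype.equivOfCardEq hcard, fun _ => false, fun T => ?_⟩
      exact ⟨fun _ => topes_univ hf' (by omega) _, fun _ => topes_univ hf (by omega) _⟩
  refine ⟨π, s, fun σ => ?_⟩
  rw [covector_iff ⟨T₀, hT₀⟩, covector_iff ⟨t₀, ht₀⟩]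
  constructor
  · intro h t ht
    have hform : t = fun b => xor ((fun i => xor (t (π i)) (s i)) (π.symm b)) (s (π.symm b)) := by
      funext b
      simp
    have hT : (fun i => xor (t (π i)) (s i)) ∈ topes f := by
      rw [hπ, ← hform]
      exact ht
    have h1 := (hπ _).mp (h _ hT)
    rw [← comp_tr, ← hform] at h1
    exact h1
  · intro h T hT
    rw [hπ, ← comp_tr]
    exact h _ ((hπ T).mp hT)

end Pool.Agent.LibMPd06cab
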