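import Mathlib
import Pool.Agent.LibMPd06cab.Defs
import Pool.Agent.LibMPd06cab.Trans

/-!
Faces of projective arrangements in terms of sign vectors.
-/

open Filter Topology

namespace Pool.Agent.LibMPd06cab

variable {d : ℕ} {ι : Type*}

/-- Abbreviation for the coordinate space. -/
abbrev E (d : ℕ) : Type := Fin (d + 1) → ℝ

theorem pt_surj (p : PSpace d) : ∃ v : {v : E d // v ≠ 0}, p = pt v := by
  refine ⟨⟨Projectivization.rep p, Projectivization.rep_nonzero p⟩, ?_⟩
  exact (Projectivization.mk_rep p).symm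

theorem pt_eq_iff (v w : {v : E d // v ≠ 0}) : pt v = pt w ↔ ∃ a : ℝ, a ≠ 0 ∧ v.1 = a • w.1 := by
  constructor
  · intro h
    obtain ⟨a, ha⟩ := (Projectivization.mk_eq_mk_iff' ℝ v.1 w.1 v.2 w.2).mp h
    refine ⟨a, ?_, ha.symm⟩
    rintro rfl
    apply v.2
    rw [← ha, zero_smul]
  · rintro ⟨a, _, ha⟩
    exact (Projectivization.mk_eq_mk_iff' ℝ v.1 w.1 v.2 w.2).mpr ⟨a, ha.symm⟩

theorem continuous_pt : Continuous (pt (d := d)) := continuous_coinduced_rng

theorem liesOn_pt (v : {v : E d // v ≠ 0}) (H : Submodule ℝ (E d)) : LiesOn (pt v) H ↔ v.1 ∈ H := by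
  show (Projectivization.mk ℝ v.1 v.2).submodule ≤ H ↔ _
  rw [Projectivization.submodule_mk, Submodule.span_singleton_le_iff_mem]

/-- The forms separate. -/
def Sep (f : ι → E d →ₗ[ℝ] ℝ) : Prop := ∀ x, (∀ i, f i x = 0) → x = 0

/-- The set of projective points with sign vector `σ` (up to sign). -/
def Fs (f : ι → E d →ₗ[ℝ] ℝ) (σ : ι → SignType) : Set (PSpace d) :=
  {q | ∃ w : {v : E d // v ≠ 0}, q = pt w ∧ sv f w.1 = σ}

theorem sv_smul (f : ι → E d →ₗ[ℝ] ℝ) {a : ℝ} (ha : a ≠ 0) (v : E d) :
    sv f (a • v) = sv f v ∨ sv f (a • v) = - sv f v := by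
  rcases lt_or_gt_of_ne ha with h | h
  · right
    funext i
    simp only [sv, map_smul, smul_eq_mul, Pi.neg_apply]
    rw [sign_mul, sign_neg h, neg_one_mul]
  · left
    funext i
    simp only [sv, map_smul, smul_eq_mul]
    rw [sign_mul, sign_pos h, one_mul]

theorem sv_neg (f : ι → E d →ₗ[ℝ] ℝ) (v : E d) : sv f (-v) = - sv f v := by
  funext i
  simp only [sv, map_neg, Pi.neg_apply]
  exact Left.sign_neg _

theorem sv_of_pt_eq (f : ι → E d →ₗ[ℝ] ℝ) {v w : {v : E d // v ≠ 0}} (h : pt v = pt w) :
    sv f v.1 = sv f w.1 ∨ sv f v.1 = - sv f w.1 := by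
  obtain ⟨a, ha, hv⟩ := (pt_eq_iff v w).mp h
  rw [hv]
  exact sv_smul f ha w.1

theorem Fs_neg (f : ι → E d →ₗ[ℝ] ℝ) (σ : ι → SignType) : Fs f (-σ) = Fs f σ := by
  have key : ∀ σ : ι → SignType, Fs f (-σ) ⊆ Fs f σ := by
    rintro σ q ⟨w, rfl, hw⟩
    refine ⟨⟨-w.1, neg_ne_zero.mpr w.2⟩, ?_, ?_⟩
    · rw [pt_eq_iff]
      exact ⟨-1, by norm_num, by simp⟩
    · rw [sv_neg, hw, neg_neg]
  apply Set.Subset.antisymm (key σ)
  have := key (-σ)
  rwa [neg_neg] at this

theorem pt_mem_Fs (f : ι → E d →ₗ[ℝ] ℝ) (v : {v : E d // v ≠ 0}) : pt v ∈ Fs f (sv f v.1) :=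
  ⟨v, rfl, rfl⟩

theorem pt_mem_Fs_iff (f : ι → E d →ₗ[ℝ] ℝ) (v : {v : E d // v ≠ 0}) (σ : ι → SignType) :
    pt v ∈ Fs f σ ↔ sv f v.1 = σ ∨ sv f v.1 = -σ := by
  constructor
  · rintro ⟨w, hw, rfl⟩
    exact sv_of_pt_eq f hw
  · rintro (h | h)
    · exact ⟨v, rfl, h⟩
    · rw [← Fs_neg]; exact ⟨v, rfl, h⟩

theorem Fs_eq_iff (f : ι → E d →ₗ[ℝ] ℝ) (v : {v : E d // v ≠ 0}) (σ : ι → SignType) :
    Fs f (sv f v.1) = Fs f σ ↔ σ = sv f v.1 ∨ σ = - sv f v.1 := by
  constructor
  · intro h
    have h1 := pt_mem_Fs f v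
    rw [h, pt_mem_Fs_iff] at h1
    rcases h1 with h1 | h1
    · exact Or.inl h1.symm
    · right; rw [h1, neg_neg]
  · rintro (rfl | rfl)
    · rfl
    · rw [Fs_neg]

/-- The relative sign of two forms at a projective point. -/
noncomputable def relSign (f : ι → E d →ₗ[ℝ] ℝ) (i j : ι) (q : PSpace d) : SignType :=
  SignType.sign (f i (Projectivization.rep q) * f j (Projectivization.rep q))

theorem relSign_pt (f : ι → E d →ₗ[ℝ] ℝ) (i j : ι) (v : {v : E d // v ≠ 0}) :
    relSign f i j (pt v) = SignType.sign (f i v.1 * f j v.1) := by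
  have h : pt ⟨Projectivization.rep (pt v), Projectivization.rep_nonzero (pt v)⟩ = pt v :=
    Projectivization.mk_rep (pt v)
  obtain ⟨a, ha, hv⟩ := (pt_eq_iff _ _).mp h
  unfold relSign
  have hv' : Projectivization.rep (pt v) = a • v.1 := hv
  rw [hv']
  simp only [map_smul, smul_eq_mul]
  have : a * f i v.1 * (a * f j v.1) = (a * a) * (f i v.1 * f j v.1) := by ring
  rw [this, sign_mul, sign_pos (mul_self_pos.mpr ha), one_mul]

theorem relSign_pt' (f : ι → E d →ₗ[ℝ] ℝ) (i j : ι) (v : {v : E d // v ≠ 0}) :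
    relSign f i j (pt v) = sv f v.1 i * sv f v.1 j := by
  rw [relSign_pt, sign_mul]; rfl

theorem isOpen_relSign (f : ι → E d →ₗ[ℝ] ℝ) (i j : ι) (s : SignType) (hs : s ≠ 0) :
    IsOpen {q : PSpace d | relSign f i j q = s} := by
  rw [isOpen_coinduced]
  have hc : ∀ i, Continuous (fun v : {v : E d // v ≠ 0} => f i v.1) := fun i =>
    (LinearMap.continuous_of_finiteDimensional (f i)).comp continuous_subtype_val
  have hset : pt ⁻¹' {q : PSpace d | relSign f i j q = s} =
      {v : {v : E d // v ≠ 0} | SignType.sign (f i v.1 * f j v.1) = s} := by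
    ext v
    show relSign f i j (pt v) = s ↔ _
    rw [relSign_pt]
    rfl
  rw [hset]
  rcases s with _ | _ | _
  · exact absurd rfl hs
  · have : {v : {v : E d // v ≠ 0} | SignType.sign (f i v.1 * f j v.1) = SignType.neg} =
        {v | f i v.1 * f j v.1 < 0} := by
      ext v
      exact sign_eq_neg_one_iff
    rw [this]
    exact isOpen_lt ((hc i).mul (hc j)) continuous_const
  · have : {v : {v : E d // v ≠ 0} | SignType.sign (f i v.1 * f j v.1) = SignType.pos} =
        {v | 0 < f i v.1 * f j v.1} := by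
      ext v
      exact sign_eq_one_iff
    rw [this]
    exact isOpen_lt continuous_const ((hc i).mul (hc j))

/-- Points with equal relative signs have equal sign vectors up to sign. -/
theorem eq_of_relSign {σ τ : ι → SignType} {i₀ : ι} (hi₀ : σ i₀ ≠ 0)
    (h : ∀ j, σ i₀ * σ j = τ i₀ * τ j) : τ = σ ∨ τ = -σ := by
  have h0 := h i₀
  have key : ∀ a b : SignType, a ≠ 0 → a * a = b * b → b = a ∨ b = -a := by decide
  rcases key _ _ hi₀ h0 with h1 | h1
  · left
    funext j
    have h2 := h j
    rw [h1] at h2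
    revert h2 hi₀
    generalize σ i₀ = a
    generalize σ j = b
    generalize τ j = c
    revert a b c
    decide
  · right
    funext j
    have h2 := h j
    rw [h1] at h2
    simp only [Pi.neg_apply]
    revert h2 hi₀
    generalize σ i₀ = a
    generalize σ j = b
    generalize τ j = c
    revert a b c
    decide

theorem isPreconnected_Fs (f : ι → E d →ₗ[ℝ] ℝ) (σ : ι → SignType) {i₀ : ι} (hi₀ : σ i₀ ≠ 0) :
    IsPreconnected (Fs f σ) := by
  have himg : Fs f σ = pt '' {w : {v : E d // v ≠ 0} | sv f w.1 = σ} := by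
    ext q
    constructor
    · rintro ⟨w, rfl, hw⟩; exact ⟨w, hw, rfl⟩
    · rintro ⟨w, hw, rfl⟩; exact ⟨w, rfl, hw⟩
  rw [himg]
  apply IsPreconnected.image _ _ continuous_pt.continuousOn
  have hind : Topology.IsInducing (Subtype.val : {v : E d // v ≠ 0} → E d) := ⟨rfl⟩
  rw [← hind.isPreconnected_image]
  have hval : Subtype.val '' {w : {v : E d // v ≠ 0} | sv f w.1 = σ} = {x : E d | sv f x = σ} := by
    ext x
    constructor
    · rintro ⟨w, hw, rfl⟩; exact hw
    · intro hx
      have hx0 : x ≠ 0 := by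
        rintro rfl
        apply hi₀
        have hx' : sv f (0 : E d) = σ := hx
        rw [← hx']
        simp [sv]
      exact ⟨⟨x, hx0⟩, hx, rfl⟩
  rw [hval]
  apply Convex.isPreconnected
  intro x hx y hy a b ha hb hab
  have hx' : sv f x = σ := hx
  have hy' : sv f y = σ := hy
  show sv f (a • x + b • y) = σ
  funext i
  have h1 : SignType.sign (f i x) = σ i := congrFun hx' i
  have h2 : SignType.sign (f i y) = σ i := congrFun hy' i
  simp only [sv, map_add, map_smul, smul_eq_mul]
  rcases hs : σ i with _ | _ | _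
  · rw [hs] at h1 h2
    have h3 := sign_eq_zero_iff.mp h1
    have h4 := sign_eq_zero_iff.mp h2
    rw [h3, h4]; simp
  · rw [hs] at h1 h2
    have h3 := sign_eq_neg_one_iff.mp h1
    have h4 := sign_eq_neg_one_iff.mp h2
    apply sign_eq_neg_one_iff.mpr
    rcases eq_or_lt_of_le ha with rfl | ha'
    · have : b = 1 := by linarith
      subst this
      simpa using h4
    · have := mul_neg_of_pos_of_neg ha' h3
      have := mul_nonpos_of_nonneg_of_nonpos hb h4.le
      linarith
  · rw [hs] at h1 h2
    have h3 := sign_eq_one_iff.mp h1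
    have h4 := sign_eq_one_iff.mp h2
    apply sign_eq_one_iff.mpr
    rcases eq_or_lt_of_le ha with rfl | ha'
    · have : b = 1 := by linarith
      subst this
      simpa using h4
    · have := mul_pos ha' h3
      have := mul_nonneg hb h4.le
      linarith

/-- Domination of sign vectors. -/
def Lez (σ τ : ι → SignType) : Prop := ∀ i, σ i = 0 ∨ σ i = τ i

theorem Fs_closure_iff [Finite ι] {f : ι → E d →ₗ[ℝ] ℝ} (hf : Sep f) (v w : {v : E d // v ≠ 0}) :
    Fs f (sv f v.1) ⊆ closure (Fs f (sv f w.1)) ↔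
      Lez (sv f v.1) (sv f w.1) ∨ Lez (sv f v.1) (- sv f w.1) := by
  classical
  obtain ⟨i₀, hi₀⟩ : ∃ i₀, f i₀ v.1 ≠ 0 := by
    by_contra hcon
    push Not at hcon
    exact v.2 (hf v.1 hcon)
  constructor
  · intro h
    have hmem := h (pt_mem_Fs f v)
    -- an open neighbourhood
    let O : Set (PSpace d) := ⋂ i : {i : ι // sv f v.1 i ≠ 0},
      {q | relSign f i₀ i.1 q = relSign f i₀ i.1 (pt v)}
    have hO : IsOpen O := by
      apply isOpen_iInter_of_finite
      rintro ⟨i, hi⟩
      apply isOpen_relSign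
      rw [relSign_pt']
      have h1 : sv f v.1 i₀ ≠ 0 := by
        intro h0; exact hi₀ (sign_eq_zero_iff.mp h0)
      have key : ∀ a b : SignType, a ≠ 0 → b ≠ 0 → a * b ≠ 0 := by decide
      exact key _ _ h1 hi
    have hvO : pt v ∈ O := by
      rw [Set.mem_iInter]; intro i; exact rfl
    obtain ⟨q, hqO, u, rfl, hu⟩ := mem_closure_iff.mp hmem O hO hvO
    rw [Set.mem_iInter] at hqO
    have hrel : ∀ i, sv f v.1 i ≠ 0 → sv f v.1 i₀ * sv f v.1 i = sv f u.1 i₀ * sv f u.1 i := by
      intro i hi
      have h1 : relSign f i₀ i (pt u) = relSign f i₀ i (pt v) := hqO ⟨i, hi⟩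
      rw [relSign_pt', relSign_pt'] at h1
      exact h1.symm
    have h0 : sv f v.1 i₀ ≠ 0 := by
      intro h0; exact hi₀ (sign_eq_zero_iff.mp h0)
    have key : ∀ a b : SignType, a ≠ 0 → a * a = b * b → b = a ∨ b = -a := by decide
    rw [← hu]
    rcases key _ _ h0 (hrel i₀ h0) with h1 | h1
    · left
      intro i
      by_cases hi : sv f v.1 i = 0
      · exact Or.inl hi
      · right
        have h2 := hrel i hi
        rw [h1] at h2
        revert h2 h0
        generalize sv f v.1 i₀ = a
        generalize sv f v.1 i = b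
        generalize sv f u.1 i = c
        revert a b c
        decide
    · right
      intro i
      by_cases hi : sv f v.1 i = 0
      · exact Or.inl hi
      · right
        have h2 := hrel i hi
        rw [h1] at h2
        simp only [Pi.neg_apply]
        revert h2 h0
        generalize sv f v.1 i₀ = a
        generalize sv f v.1 i = b
        generalize sv f u.1 i = c
        revert a b c
        decide
  · -- it suffices to treat the first case
    have key : ∀ w : {v : E d // v ≠ 0}, Lez (sv f v.1) (sv f w.1) →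
        Fs f (sv f v.1) ⊆ closure (Fs f (sv f w.1)) := by
      rintro w hle _ ⟨x, rfl, hx⟩
      have himg : pt '' {u : {v : E d // v ≠ 0} | sv f u.1 = sv f w.1} ⊆ Fs f (sv f w.1) := by
        rintro _ ⟨u, hu, rfl⟩
        exact ⟨u, rfl, hu⟩
      apply closure_mono himg
      apply image_closure_subset_closure_image continuous_pt
      refine ⟨x, ?_, rfl⟩
      rw [closure_subtype]
      have htend : Tendsto (fun ε : ℝ => x.1 + ε • w.1) (𝓝[>] 0) (𝓝 (x.1 + (0 : ℝ) • w.1)) := by
        apply Tendsto.mono_left _ nhdsWithin_le_nhds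
        exact Continuous.tendsto (by fun_prop) 0
      rw [zero_smul, add_zero] at htend
      apply mem_closure_of_tendsto htend
      have ev : ∀ᶠ ε : ℝ in 𝓝[>] 0, ∀ i, SignType.sign (f i x.1 + ε * f i w.1) = sv f w.1 i := by
        rw [eventually_all]
        intro i
        have hxi : SignType.sign (f i x.1) = sv f v.1 i := congrFun hx i
        by_cases h0 : f i x.1 = 0
        · filter_upwards [self_mem_nhdsWithin] with ε hε
          rw [h0, zero_add, sign_mul, sign_pos hε, one_mul]; rfl
        · have hvi : sv f v.1 i ≠ 0 := by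
            rw [← hxi]; intro h1; exact h0 (sign_eq_zero_iff.mp h1)
          have hvw : sv f v.1 i = sv f w.1 i := by
            rcases hle i with h | h
            · exact absurd h hvi
            · exact h
          filter_upwards [eventually_small (f i x.1) (f i w.1) h0] with ε hε
          rw [← hvw, ← hxi]
          rcases lt_or_gt_of_ne h0 with h1 | h1
          · have h2 : f i x.1 + ε * f i w.1 < 0 := by
              by_contra h3
              push Not at h3
              nlinarith
            rw [sign_neg h1, sign_neg h2]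
          · have h2 : 0 < f i x.1 + ε * f i w.1 := by
              by_contra h3
              push Not at h3
              nlinarith
            rw [sign_pos h1, sign_pos h2]
      filter_upwards [ev] with ε hε
      have hsv : sv f (x.1 + ε • w.1) = sv f w.1 := by
        funext i
        rw [← hε i]
        simp [sv]
      have hne : x.1 + ε • w.1 ≠ 0 := by
        intro h0
        rw [h0] at hsv
        apply w.2
        apply hf
        intro i
        have := congrFun hsv i
        simp only [sv, map_zero, sign_zero] at this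
        exact sign_eq_zero_iff.mp this.symm
      exact ⟨⟨x.1 + ε • w.1, hne⟩, hsv, rfl⟩
    rintro (h | h)
    · exact key w h
    · rw [← Fs_neg f (sv f w.1), ← sv_neg]
      exact key ⟨-w.1, neg_ne_zero.mpr w.2⟩ (by rw [sv_neg]; exact h)

end Pool.Agent.LibMPd06cab
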