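import Mathlib
import Pool.Agent.LibMPd06cab.Topo

/-!
Arrangements with isomorphic cell-adjacency graphs are combinatorially equivalent.
-/

open Filter Topology Finset

namespace Pool.Agent.LibMPd06cab

variable {d : ℕ}

/-- A linear form with a given hyperplane as kernel. -/
theorem exists_form (H : Submodule ℝ (E d)) (hH : Module.finrank ℝ H = d) :
    ∃ f : E d →ₗ[ℝ] ℝ, LinearMap.ker f = H := by
  have hlt : H < ⊤ := by
    rw [lt_top_iff_ne_top]
    rintro rfl
    rw [finrank_top, Module.finrank_fin_fun] at hH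
    omega
  obtain ⟨f, hf0, hle⟩ := Submodule.exists_le_ker_of_lt_top H hlt
  refine ⟨f, (Submodule.eq_of_le_of_finrank_eq hle ?_).symm⟩
  have h1 := LinearMap.finrank_range_add_finrank_ker f
  rw [LinearMap.range_eq_top.mpr (LinearMap.surjective hf0), finrank_top, Module.finrank_self,
    Module.finrank_fin_fun] at h1
  omega

/-- Forms for an arrangement. -/
noncomputable def formOf (A : Arrangement d) (H : {H // H ∈ A.hyps}) : E d →ₗ[ℝ] ℝ :=
  (exists_form H.1 (A.isHyperplane H.1 H.2)).choose

theorem ker_formOf (A : Arrangement d) (H : {H // H ∈ A.hyps}) :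
    LinearMap.ker (formOf A H) = H.1 :=
  (exists_form H.1 (A.isHyperplane H.1 H.2)).choose_spec

theorem liesOn_iff (A : Arrangement d) (H : {H // H ∈ A.hyps}) (v : {v : E d // v ≠ 0}) :
    LiesOn (pt v) H.1 ↔ formOf A H v.1 = 0 := by
  rw [liesOn_pt, ← ker_formOf, LinearMap.mem_ker]

theorem sep_formOf (A : Arrangement d) : Sep (formOf A) := by
  intro x hx
  by_contra hx0
  apply A.noCommonPoint
  exact ⟨pt ⟨x, hx0⟩, fun H hH => (liesOn_iff A ⟨H, hH⟩ ⟨x, hx0⟩).mpr (hx ⟨H, hH⟩)⟩

theorem simple_formOf (hd : 3 ≤ d) (A : Arrangement d) : Simple (formOf A) where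
  ne_smul := by
    intro i j hij c hc
    apply hij
    have h1 : LinearMap.ker (formOf A j) ≤ LinearMap.ker (formOf A i) := by
      intro x hx
      rw [LinearMap.mem_ker] at hx ⊢
      rw [hc, LinearMap.smul_apply, hx, smul_zero]
    rw [ker_formOf, ker_formOf] at h1
    have h2 := Submodule.eq_of_le_of_finrank_eq h1
      (by rw [A.isHyperplane _ i.2, A.isHyperplane _ j.2])
    exact Subtype.ext h2.symm
  sep := sep_formOf A
  rank := by
    rw [Module.finrank_fin_fun]
    omega

theorem stratum_iff (A : Arrangement d) (v w : {v : E d // v ≠ 0}) :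
    pt w ∈ stratum A (pt v) ↔ ∀ i, sv (formOf A) w.1 i = 0 ↔ sv (formOf A) v.1 i = 0 := by
  have key : ∀ (i : {H // H ∈ A.hyps}) (u : {v : E d // v ≠ 0}),
      sv (formOf A) u.1 i = 0 ↔ LiesOn (pt u) i.1 := by
    intro i u
    rw [liesOn_iff]
    exact sign_eq_zero_iff
  constructor
  · intro h i
    rw [key, key]
    exact h i.1 i.2
  · intro h H hH
    have := h ⟨H, hH⟩
    rw [key, key] at this
    exact this

theorem face_eq (A : Arrangement d) (v : {v : E d // v ≠ 0}) :
    face A (pt v) = Fs (formOf A) (sv (formOf A) v.1) := by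
  obtain ⟨i₀, hi₀⟩ : ∃ i₀, formOf A i₀ v.1 ≠ 0 := by
    by_contra hcon
    push Not at hcon
    exact v.2 (sep_formOf A v.1 hcon)
  have hi₀' : sv (formOf A) v.1 i₀ ≠ 0 := fun h => hi₀ (sign_eq_zero_iff.mp h)
  apply Set.Subset.antisymm
  · intro q hq
    obtain ⟨w, rfl⟩ := pt_surj q
    have hstr : ∀ q ∈ face A (pt v), q ∈ stratum A (pt v) :=
      fun q hq => connectedComponentIn_subset _ _ hq
    have hrel : ∀ j, relSign (formOf A) i₀ j (pt v) = relSign (formOf A) i₀ j (pt w) := by
      intro j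
      have hpre : IsPreconnected (face A (pt v)) := isPreconnected_connectedComponentIn
      have hvmem : pt v ∈ face A (pt v) := mem_connectedComponentIn (fun H _ => Iff.rfl)
      refine hpre.constant (f := relSign (formOf A) i₀ j) ?_ hvmem hq
      intro q hq
      obtain ⟨u, rfl⟩ := pt_surj q
      have hu := (stratum_iff A v u).mp (hstr _ hq)
      show Tendsto _ _ _
      rw [nhds_discrete, tendsto_pure]
      by_cases hj : sv (formOf A) v.1 j = 0
      · filter_upwards [self_mem_nhdsWithin] with q' hq'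
        obtain ⟨u', rfl⟩ := pt_surj q'
        have hu' := (stratum_iff A v u').mp (hstr _ hq')
        rw [relSign_pt', relSign_pt', (hu j).mpr hj, (hu' j).mpr hj, mul_zero, mul_zero]
      · apply nhdsWithin_le_nhds
        refine (isOpen_relSign (formOf A) i₀ j (relSign (formOf A) i₀ j (pt u)) ?_).mem_nhds rfl
        rw [relSign_pt']
        have key : ∀ a b : SignType, a ≠ 0 → b ≠ 0 → a * b ≠ 0 := by decide
        exact key _ _ (fun h => hi₀' ((hu i₀).mp h)) (fun h => hj ((hu j).mp h))
    rw [pt_mem_Fs_iff]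
    apply eq_of_relSign hi₀'
    intro j
    have := hrel j
    rw [relSign_pt', relSign_pt'] at this
    exact this
  · apply IsPreconnected.subset_connectedComponentIn (isPreconnected_Fs _ _ hi₀') (pt_mem_Fs _ _)
    rintro q ⟨w, rfl, hw⟩
    rw [stratum_iff]
    intro i
    rw [hw]

theorem isFace_iff (A : Arrangement d) (F : Set (PSpace d)) :
    IsFace A F ↔ ∃ v : {v : E d // v ≠ 0}, F = Fs (formOf A) (sv (formOf A) v.1) := by
  constructor
  · rintro ⟨p, rfl⟩
    obtain ⟨v, rfl⟩ := pt_surj p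
    exact ⟨v, face_eq A v⟩
  · rintro ⟨v, rfl⟩
    exact ⟨pt v, (face_eq A v).symm⟩

theorem flat_top_iff (A : Arrangement d) (v : {v : E d // v ≠ 0}) :
    Module.finrank ℝ (flat A (pt v)) = d + 1 ↔ ∀ i, formOf A i v.1 ≠ 0 := by
  constructor
  · intro h i hi
    have hle : flat A (pt v) ≤ i.1 := sInf_le ⟨i.2, (liesOn_iff A i v).mpr hi⟩
    have h1 := Submodule.finrank_mono hle
    rw [A.isHyperplane _ i.2] at h1
    omega
  · intro h
    have : flat A (pt v) = ⊤ := by
      rw [eq_top_iff]
      apply le_sInf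
      rintro H ⟨hH, hl⟩
      exact absurd ((liesOn_iff A ⟨H, hH⟩ v).mp hl) (h ⟨H, hH⟩)
    rw [this, finrank_top, Module.finrank_fin_fun]

theorem flat_hyp_iff (A : Arrangement d) (v : {v : E d // v ≠ 0}) :
    Module.finrank ℝ (flat A (pt v)) = d ↔ ∃ i, formOf A i v.1 = 0 ∧ ∀ j, j ≠ i →
      formOf A j v.1 ≠ 0 := by
  constructor
  · intro h
    have hex : ∃ i, formOf A i v.1 = 0 := by
      by_contra hcon
      push Not at hcon
      have := (flat_top_iff A v).mpr hcon
      omega
    obtain ⟨i, hi⟩ := hex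
    refine ⟨i, hi, fun j hji hj => ?_⟩
    have hle1 : flat A (pt v) ≤ i.1 := sInf_le ⟨i.2, (liesOn_iff A i v).mpr hi⟩
    have hle2 : flat A (pt v) ≤ j.1 := sInf_le ⟨j.2, (liesOn_iff A j v).mpr hj⟩
    have e1 := Submodule.eq_of_le_of_finrank_eq hle1 (by rw [h, A.isHyperplane _ i.2])
    have e2 := Submodule.eq_of_le_of_finrank_eq hle2 (by rw [h, A.isHyperplane _ j.2])
    exact hji (Subtype.ext (e2.symm.trans e1))
  · rintro ⟨i, hi, hj⟩
    have : flat A (pt v) = i.1 := by
      apply le_antisymm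
      · exact sInf_le ⟨i.2, (liesOn_iff A i v).mpr hi⟩
      · apply le_sInf
        rintro H ⟨hH, hl⟩
        by_cases hHi : (⟨H, hH⟩ : {H // H ∈ A.hyps}) = i
        · rw [← hHi]
        · exact absurd ((liesOn_iff A ⟨H, hH⟩ v).mp hl) (hj _ hHi)
    rw [this, A.isHyperplane _ i.2]

/-- The sign vector of a tope. -/
def sgnOf {ι : Type*} (T : ι → Bool) : ι → SignType := fun i => if T i then 1 else -1

theorem sgnOf_ne {ι : Type*} (T : ι → Bool) (i : ι) : sgnOf T i ≠ 0 := by
  simp only [sgnOf]; split_ifs <;> decide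

theorem sgnOf_neg {ι : Type*} (T : ι → Bool) : sgnOf (neg T) = - sgnOf T := by
  funext i
  simp only [sgnOf, neg, Pi.neg_apply]
  by_cases h : T i = true <;> simp [h]

theorem sgnOf_inj {ι : Type*} {T T' : ι → Bool} (h : sgnOf T = sgnOf T') : T = T' := by
  funext i
  have := congrFun h i
  simp only [sgnOf] at this
  revert this
  cases T i <;> cases T' i <;> simp

theorem sgnOf_eq_iff {ι : Type*} {T T' : ι → Bool} {i : ι} : sgnOf T i = sgnOf T' i ↔ T i = T' i := by
  simp only [sgnOf]
  cases T i <;> cases T' i <;> simp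

theorem hasSigns_iff {ι : Type*} (f : ι → E d →ₗ[ℝ] ℝ) (T : ι → Bool) (x : E d) :
    HasSigns f T x ↔ sv f x = sgnOf T := by
  constructor
  · intro h
    funext i
    have := h i
    simp only [sv, sgnOf]
    cases hT : T i
    · rw [hT, sg_false] at this
      simp only [Bool.false_eq_true, if_false]
      exact sign_eq_neg_one_iff.mpr (by linarith)
    · rw [hT, sg_true] at this
      simp only [if_true]
      exact sign_eq_one_iff.mpr (by linarith)
  · intro h i
    have := congrFun h i
    simp only [sv, sgnOf] at this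
    cases hT : T i
    · rw [hT] at this
      simp only [Bool.false_eq_true, if_false] at this
      have := sign_eq_neg_one_iff.mp this
      rw [sg_false]; linarith
    · rw [hT] at this
      simp only [if_true] at this
      have := sign_eq_one_iff.mp this
      rw [sg_true]; linarith

/-- The cell of a tope. -/
def cell {ι : Type*} (f : ι → E d →ₗ[ℝ] ℝ) (T : ι → Bool) : Set (PSpace d) := Fs f (sgnOf T)

theorem cell_neg {ι : Type*} (f : ι → E d →ₗ[ℝ] ℝ) (T : ι → Bool) :
    cell f (neg T) = cell f T := by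
  rw [cell, sgnOf_neg, Fs_neg]; rfl

section

variable (A : Arrangement d)

theorem hyps_nonempty : Nonempty {H // H ∈ A.hyps} := by
  by_contra hcon
  apply A.noCommonPoint
  have h0 : (fun _ => 1 : E d) ≠ 0 := by
    intro h
    have := congrFun h 0
    simp at this
  refine ⟨pt ⟨fun _ => 1, h0⟩, fun H hH => absurd ⟨⟨H, hH⟩⟩ hcon⟩

theorem tope_vec {T : {H // H ∈ A.hyps} → Bool} (hT : T ∈ topes (formOf A)) :
    ∃ v : {v : E d // v ≠ 0}, sv (formOf A) v.1 = sgnOf T := by
  obtain ⟨x, hx⟩ := hT
  have hx' := (hasSigns_iff _ _ _).mp hx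
  obtain ⟨i⟩ := hyps_nonempty A
  have hx0 : x ≠ 0 := by
    rintro rfl
    have := hasSigns_ne hx i
    simp at this
  exact ⟨⟨x, hx0⟩, hx'⟩

theorem cell_eq_iff {T T' : {H // H ∈ A.hyps} → Bool} (hT : T ∈ topes (formOf A)) :
    cell (formOf A) T = cell (formOf A) T' ↔ T' = T ∨ T' = neg T := by
  obtain ⟨v, hv⟩ := tope_vec A hT
  rw [cell, cell, ← hv, Fs_eq_iff, hv]
  constructor
  · rintro (h | h)
    · exact Or.inl (sgnOf_inj h)
    · right
      rw [← sgnOf_neg] at h
      exact sgnOf_inj h
  · rintro (rfl | rfl)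
    · exact Or.inl rfl
    · right; exact sgnOf_neg _

theorem isCell_iff (F : Set (PSpace d)) :
    IsKFace A d F ↔ ∃ T ∈ topes (formOf A), F = cell (formOf A) T := by
  constructor
  · rintro ⟨p, rfl, hp⟩
    obtain ⟨v, rfl⟩ := pt_surj p
    rw [flat_top_iff] at hp
    have h1 := hasSigns_bs hp
    refine ⟨_, ⟨v.1, h1⟩, ?_⟩
    rw [face_eq, cell, ← (hasSigns_iff _ _ _).mp h1]
  · rintro ⟨T, hT, rfl⟩
    obtain ⟨v, hv⟩ := tope_vec A hT
    refine ⟨pt v, ?_, ?_⟩
    · rw [face_eq, hv]; rfl
    · rw [flat_top_iff]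
      exact hasSigns_ne ((hasSigns_iff _ _ _).mpr hv)

/-- A ridge between two topes. -/
theorem adj_of_common [DecidableEq {H // H ∈ A.hyps}] [Fintype {H // H ∈ A.hyps}]
    {T T' : {H // H ∈ A.hyps} → Bool} {v : {v : E d // v ≠ 0}} {i : {H // H ∈ A.hyps}}
    (hj : ∀ j, j ≠ i → formOf A j v.1 ≠ 0)
    (h1 : Lez (sv (formOf A) v.1) (sgnOf T)) (h2 : Lez (sv (formOf A) v.1) (sgnOf T'))
    (hne : T ≠ T') : hammingDist T T' = 1 := by
  have hoff : ∀ j, j ≠ i → T j = T' j := by
    intro j hji
    have h0 : sv (formOf A) v.1 j ≠ 0 := fun h => hj j hji (sign_eq_zero_iff.mp h)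
    have e1 := (h1 j).resolve_left h0
    have e2 := (h2 j).resolve_left h0
    rw [← sgnOf_eq_iff, ← e1, ← e2]
  have : T' = flip T {i} := by
    funext j
    by_cases hji : j = i
    · subst hji
      rw [flip_apply_mem (by simp)]
      by_contra hcon
      apply hne
      funext k
      by_cases hk : k = j
      · subst hk
        revert hcon
        cases T k <;> cases T' k <;> simp
      · exact hoff k hk
    · rw [flip_apply_notMem (by simpa using hji)]
      exact (hoff j hji).symm
  rw [this, ham_flip_self, card_singleton]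

theorem adj_iff (hd : 3 ≤ d) [DecidableEq {H // H ∈ A.hyps}] [Fintype {H // H ∈ A.hyps}]
    {T T' : {H // H ∈ A.hyps} → Bool} (hT : T ∈ topes (formOf A)) (hT' : T' ∈ topes (formOf A)) :
    (cell (formOf A) T ≠ cell (formOf A) T' ∧ ∃ K, IsKFace A (d - 1) K ∧
      K ⊆ closure (cell (formOf A) T) ∧ K ⊆ closure (cell (formOf A) T')) ↔
      (hammingDist T T' = 1 ∨ hammingDist T (neg T') = 1) := by
  obtain ⟨w, hw⟩ := tope_vec A hT
  obtain ⟨w', hw'⟩ := tope_vec A hT'
  have hcard : 4 ≤ Fintype.card {H // H ∈ A.hyps} := by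
    have h1 := rank_le_card (simple_formOf hd A)
    have h2 := (simple_formOf hd A).rank
    omega
  constructor
  · rintro ⟨hne, K, ⟨p, rfl, hp⟩, hK1, hK2⟩
    obtain ⟨v, rfl⟩ := pt_surj p
    rw [show d - 1 + 1 = d by omega, flat_hyp_iff] at hp
    obtain ⟨i, hi, hj⟩ := hp
    rw [face_eq, cell, ← hw, Fs_closure_iff (sep_formOf A), hw] at hK1
    rw [face_eq, cell, ← hw', Fs_closure_iff (sep_formOf A), hw'] at hK2
    have hne1 : T ≠ T' := by rintro rfl; exact hne rfl
    have hne2 : T ≠ neg T' := by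
      intro h
      apply hne
      rw [h, cell_neg]
    rw [← sgnOf_neg] at hK1 hK2
    rcases hK1 with h1 | h1 <;> rcases hK2 with h2 | h2
    · exact Or.inl (adj_of_common A hj h1 h2 hne1)
    · exact Or.inr (adj_of_common A hj h1 h2 hne2)
    · right
      have := adj_of_common A hj h1 h2 (by
        intro h; apply hne2; rw [← h, neg_neg'])
      rw [← ham_neg_neg, neg_neg'] at this
      exact this
    · left
      have := adj_of_common A hj h1 h2 (by
        intro h; apply hne1; rw [← neg_neg' T, h, neg_neg'])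
      rwa [ham_neg_neg] at this
  · intro h
    -- reduce to the first case
    have key : ∀ T' : {H // H ∈ A.hyps} → Bool, T' ∈ topes (formOf A) → hammingDist T T' = 1 →
        (cell (formOf A) T ≠ cell (formOf A) T' ∧ ∃ K, IsKFace A (d - 1) K ∧
          K ⊆ closure (cell (formOf A) T) ∧ K ⊆ closure (cell (formOf A) T')) := by
      intro T' hT' h1
      obtain ⟨w', hw'⟩ := tope_vec A hT'
      constructor
      · intro heq
        rcases (cell_eq_iff A hT).mp heq with rfl | rfl
        · rw [hammingDist_self] at h1; omega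
        · have := ham_neg_right T T
          rw [hammingDist_self, h1] at this
          omega
      · obtain ⟨i, rfl⟩ := exists_flip_of_ham_one h1
        obtain ⟨x, hx0, hx⟩ := wall_point hT hT'
        obtain ⟨e, he⟩ : ∃ e, e ≠ i := Fintype.exists_ne_of_one_lt_card (by omega) i
        have hxne : ∀ e, e ≠ i → formOf A e x ≠ 0 := by
          intro e he h0
          have := hx e he
          rw [h0, mul_zero] at this
          exact lt_irrefl _ this
        have hxz : x ≠ 0 := by
          rintro rfl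
          exact hxne e he (map_zero _)
        have hle : ∀ U : {H // H ∈ A.hyps} → Bool, (∀ e, e ≠ i → U e = T e) →
            Lez (sv (formOf A) x) (sgnOf U) := by
          intro U hU e
          by_cases hei : e = i
          · left; rw [hei]; exact sign_eq_zero_iff.mpr hx0
          · right
            have h2 := hx e hei
            simp only [sv, sgnOf]
            rw [hU e hei]
            cases hTe : T e
            · rw [hTe, sg_false] at h2
              simp only [Bool.false_eq_true, if_false]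
              exact sign_eq_neg_one_iff.mpr (by linarith)
            · rw [hTe, sg_true] at h2
              simp only [if_true]
              exact sign_eq_one_iff.mpr (by linarith)
        refine ⟨face A (pt ⟨x, hxz⟩), ⟨pt ⟨x, hxz⟩, rfl, ?_⟩, ?_, ?_⟩
        · rw [show d - 1 + 1 = d by omega, flat_hyp_iff]
          exact ⟨i, hx0, hxne⟩
        · rw [face_eq, cell, ← hw, Fs_closure_iff (sep_formOf A), hw]
          exact Or.inl (hle T (fun _ _ => rfl))
        · rw [face_eq, cell, ← hw', Fs_closure_iff (sep_formOf A), hw']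
          exact Or.inl (hle _ (fun e he => flip_apply_notMem (by simpa using he)))
    rcases h with h | h
    · exact key T' hT' h
    · have := key (neg T') ((sysOf (simple_formOf hd A)).neg_mem T' hT') h
      rw [cell_neg] at this
      exact this

end

/-- The correspondence of topes given by an isomorphism of the cell-adjacency graphs. -/
theorem corr_of_iso (hd : 3 ≤ d) (A B : Arrangement d)
    [DecidableEq {H // H ∈ A.hyps}] [Fintype {H // H ∈ A.hyps}]
    [DecidableEq {H // H ∈ B.hyps}] [Fintype {H // H ∈ B.hyps}]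
    (φ : cellGraph A ≃g cellGraph B) :
    Corr (sysOf (simple_formOf hd A)) (sysOf (simple_formOf hd B))
      (fun T t => ∃ (hT : T ∈ topes (formOf A)) (ht : t ∈ topes (formOf B)),
        φ ⟨cell (formOf A) T, (isCell_iff A _).mpr ⟨T, hT, rfl⟩⟩ =
          ⟨cell (formOf B) t, (isCell_iff B _).mpr ⟨t, ht, rfl⟩⟩) where
  left_mem := fun h => h.choose
  right_mem := fun h => h.choose_spec.choose
  left_total := by
    intro T hT
    obtain ⟨t, ht, h⟩ := (isCell_iff B _).mp
      (φ ⟨cell (formOf A) T, (isCell_iff A _).mpr ⟨T, hT, rfl⟩⟩).2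
    exact ⟨t, hT, ht, Subtype.ext h⟩
  right_total := by
    intro t ht
    obtain ⟨T, hT, h⟩ := (isCell_iff A _).mp
      (φ.symm ⟨cell (formOf B) t, (isCell_iff B _).mpr ⟨t, ht, rfl⟩⟩).2
    refine ⟨T, hT, ht, ?_⟩
    rw [← φ.apply_symm_apply ⟨cell (formOf B) t, (isCell_iff B _).mpr ⟨t, ht, rfl⟩⟩]
    congr 1
    exact Subtype.ext h.symm
  neg_right := by
    rintro T t ⟨hT, ht, h⟩
    refine ⟨hT, (sysOf (simple_formOf hd B)).neg_mem t ht, ?_⟩
    rw [h]
    exact Subtype.ext (cell_neg _ _).symm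
  neg_left := by
    rintro T t ⟨hT, ht, h⟩
    refine ⟨(sysOf (simple_formOf hd A)).neg_mem T hT, ht, ?_⟩
    rw [← h]
    congr 1
    exact Subtype.ext (cell_neg _ _)
  uniq_right := by
    rintro T t t' ⟨hT, ht, h⟩ ⟨hT', ht', h'⟩
    rw [h] at h'
    exact (cell_eq_iff B ht).mp (congrArg Subtype.val h')
  uniq_left := by
    rintro T T' t ⟨hT, ht, h⟩ ⟨hT', ht', h'⟩
    have := φ.injective (h.trans h'.symm)
    exact (cell_eq_iff A hT).mp (congrArg Subtype.val this)
  adj := by
    rintro T t T' t' ⟨hT, ht, h⟩ ⟨hT', ht', h'⟩ h1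
    have e1 : (cellGraph A).Adj ⟨cell (formOf A) T, (isCell_iff A _).mpr ⟨T, hT, rfl⟩⟩
        ⟨cell (formOf A) T', (isCell_iff A _).mpr ⟨T', hT', rfl⟩⟩ := by
      have := (adj_iff A hd hT hT').mpr (Or.inl h1)
      exact ⟨fun h => this.1 (congrArg Subtype.val h), this.2⟩
    rw [← φ.map_adj_iff, h, h'] at e1
    exact (adj_iff B hd ht ht').mp ⟨fun h => e1.1 (Subtype.ext h), e1.2⟩
  adj' := by
    rintro T t T' t' ⟨hT, ht, h⟩ ⟨hT', ht', h'⟩ h1
    have e1 : (cellGraph B).Adj ⟨cell (formOf B) t, (isCell_iff B _).mpr ⟨t, ht, rfl⟩⟩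
        ⟨cell (formOf B) t', (isCell_iff B _).mpr ⟨t', ht', rfl⟩⟩ := by
      have := (adj_iff B hd ht ht').mpr (Or.inl h1)
      exact ⟨fun h => this.1 (congrArg Subtype.val h), this.2⟩
    rw [← h, ← h', φ.map_adj_iff] at e1
    exact (adj_iff A hd hT hT').mp ⟨fun h => e1.1 (Subtype.ext h), e1.2⟩

section tr

variable {ι κ : Type*}

theorem tr_neg (π : ι ≃ κ) (s : ι → Bool) (σ : ι → SignType) : tr π s (-σ) = - tr π s σ := by
  funext b
  simp only [tr, Pi.neg_apply]
  split_ifs <;> simp

theorem tr_inj (π : ι ≃ κ) (s : ι → Bool) {σ τ : ι → SignType} (h : tr π s σ = tr π s τ) :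
    σ = τ := by
  funext i
  have := congrFun h (π i)
  simp only [tr, Equiv.symm_apply_apply] at this
  split_ifs at this
  · exact neg_injective this
  · exact this

theorem tr_surj (π : ι ≃ κ) (s : ι → Bool) (ρ : κ → SignType) : ∃ σ, tr π s σ = ρ := by
  refine ⟨fun i => if s i then - ρ (π i) else ρ (π i), ?_⟩
  funext b
  simp only [tr, Equiv.apply_symm_apply]
  split_ifs <;> simp

theorem tr_lez (π : ι ≃ κ) (s : ι → Bool) (σ τ : ι → SignType) :
    Lez (tr π s σ) (tr π s τ) ↔ Lez σ τ := by
  constructor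
  · intro h i
    have := h (π i)
    simp only [tr, Equiv.symm_apply_apply] at this
    split_ifs at this
    · rcases this with h | h
      · left
        rw [← neg_neg (σ i), h, neg_zero]
      · right; exact neg_injective h
    · exact this
  · intro h b
    have := h (π.symm b)
    simp only [tr]
    split_ifs
    · rcases this with h | h
      · left; rw [h, neg_zero]
      · right; rw [h]
    · exact this

end tr

theorem sv_ne_zero (A : Arrangement d) (v : {v : E d // v ≠ 0}) : sv (formOf A) v.1 ≠ 0 := by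
  intro h
  apply v.2
  apply sep_formOf A
  intro i
  exact sign_eq_zero_iff.mp (congrFun h i)

theorem equivalent_of_iso (hd : 3 ≤ d) (A B : Arrangement d)
    (h : Nonempty (cellGraph A ≃g cellGraph B)) : Equivalent A B := by
  classical
  obtain ⟨φ⟩ := h
  have : Fintype {H // H ∈ A.hyps} := A.finite.fintype
  have : Fintype {H // H ∈ B.hyps} := B.finite.fintype
  obtain ⟨π, s, hπ⟩ := exists_relabel (simple_formOf hd A) (simple_formOf hd B) rfl
    (corr_of_iso hd A B φ)
  -- covectors of nonzero vectors correspond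
  have hcov : ∀ v : {v : E d // v ≠ 0}, ∃ w : {v : E d // v ≠ 0},
      sv (formOf B) w.1 = tr π s (sv (formOf A) v.1) := by
    intro v
    obtain ⟨y, hy⟩ := (hπ _).mp ⟨v.1, rfl⟩
    refine ⟨⟨y, ?_⟩, hy⟩
    rintro rfl
    apply sv_ne_zero A v
    apply tr_inj π s
    rw [← hy]
    funext b
    simp [sv, tr]
  have hcov' : ∀ w : {v : E d // v ≠ 0}, ∃ v : {v : E d // v ≠ 0},
      sv (formOf B) w.1 = tr π s (sv (formOf A) v.1) := by
    intro w
    obtain ⟨σ, hσ⟩ := tr_surj π s (sv (formOf B) w.1)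
    obtain ⟨x, hx⟩ := (hπ σ).mpr ⟨w.1, hσ.symm⟩
    refine ⟨⟨x, ?_⟩, ?_⟩
    · rintro rfl
      apply sv_ne_zero B w
      rw [← hσ, ← hx]
      funext b
      simp [sv, tr]
    · show _ = tr π s (sv (formOf A) x)
      rw [hx, hσ]
  choose g hg using hcov
  -- the map on faces
  let toV : {F : Set (PSpace d) // IsFace A F} → {v : E d // v ≠ 0} :=
    fun F => ((isFace_iff A F.1).mp F.2).choose
  have htoV : ∀ F, F.1 = Fs (formOf A) (sv (formOf A) (toV F).1) :=
    fun F => ((isFace_iff A F.1).mp F.2).choose_spec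
  let e : {F : Set (PSpace d) // IsFace A F} → {F : Set (PSpace d) // IsFace B F} :=
    fun F => ⟨Fs (formOf B) (sv (formOf B) (g (toV F)).1), (isFace_iff B _).mpr ⟨_, rfl⟩⟩
  have he : Function.Bijective e := by
    constructor
    · intro F G hFG
      have h1 : Fs (formOf B) (sv (formOf B) (g (toV F)).1) =
          Fs (formOf B) (sv (formOf B) (g (toV G)).1) := congrArg Subtype.val hFG
      rw [Fs_eq_iff, hg, hg, ← tr_neg] at h1
      apply Subtype.ext
      rw [htoV F, htoV G, Fs_eq_iff]
      rcases h1 with h1 | h1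
      · exact Or.inl (tr_inj π s h1)
      · exact Or.inr (tr_inj π s h1)
    · rintro ⟨G, hG⟩
      obtain ⟨w, rfl⟩ := (isFace_iff B G).mp hG
      obtain ⟨v, hv⟩ := hcov' w
      refine ⟨⟨Fs (formOf A) (sv (formOf A) v.1), (isFace_iff A _).mpr ⟨v, rfl⟩⟩, ?_⟩
      apply Subtype.ext
      show Fs (formOf B) (sv (formOf B) (g _).1) = Fs (formOf B) (sv (formOf B) w.1)
      rw [Fs_eq_iff, hg, hv, ← tr_neg]
      have h1 := htoV ⟨Fs (formOf A) (sv (formOf A) v.1), (isFace_iff A _).mpr ⟨v, rfl⟩⟩
      rw [Fs_eq_iff] at h1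
      rcases h1 with h1 | h1
      · left; rw [h1]
      · right; rw [h1, neg_neg]
  refine ⟨Equiv.ofBijective e he, fun F G => ?_⟩
  show F.1 ⊆ closure G.1 ↔ Fs (formOf B) (sv (formOf B) (g (toV F)).1) ⊆
    closure (Fs (formOf B) (sv (formOf B) (g (toV G)).1))
  rw [htoV F, htoV G, Fs_closure_iff (sep_formOf A), Fs_closure_iff (sep_formOf B), hg, hg,
    ← tr_neg, tr_lez, tr_lez]

end Pool.Agent.LibMPd06cab
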